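import Pool.Agent.MP_515557_an.H11.MBasic

/-! The pointwise inequality for a chain of gradients. -/

set_option autoImplicit false

open Finset

namespace Pool.Agent.MP_515557_an.H62

open H11.Mono

/-- The affine function of the chart that vanishes on the tangent line at `r`, in terms of the
signed singular values. -/
def AA (r x y : ℝ) : ℝ := (r - y) * (x - r)

/-- The outer kink function. -/
def KO (r x y : ℝ) : ℝ := max (x - r) 0 * (r - y)

/-- The inner kink function. -/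
def KI (r x y : ℝ) : ℝ := max (r - y) 0 * (x - r)

/-- The scalar majorant of the chain energy. -/
def GG (x y : ℝ) (m : ℕ → ℝ) (k : ℕ) : ℝ :=
  (x + y) * m k - k * (x * y) - ∑ i ∈ range k, (m (i + 1) - m i) ^ 2

theorem KI_neg (r x y : ℝ) : KI (-r) (-y) (-x) = KO r x y := by
  unfold KI KO
  rw [show -r - -x = x - r by ring, show -y - -r = r - y by ring]

theorem AA_neg (r x y : ℝ) : AA (-r) (-y) (-x) = AA r x y := by unfold AA; ring

theorem GG_neg (x y : ℝ) (m : ℕ → ℝ) (k : ℕ) : GG (-y) (-x) (fun i => -m i) k = GG x y m k := by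
  unfold GG
  rw [sum_congr rfl fun i _ => show (-m (i + 1) - -m i) ^ 2 = (m (i + 1) - m i) ^ 2 by ring]
  ring

theorem AA_le_KI {r x y : ℝ} (h : y ≤ x) : AA r x y ≤ KI r x y := by
  unfold AA KI
  rcases le_total 0 (r - y) with h1 | h1
  · rw [max_eq_left h1]
  · rw [max_eq_right h1, zero_mul]
    exact mul_nonpos_of_nonpos_of_nonneg h1 (by linarith)

theorem KI_nonneg {r x y : ℝ} (h : r ≤ x) : 0 ≤ KI r x y :=
  mul_nonneg (le_max_right _ _) (by linarith)

theorem abel {x y : ℝ} {m r : ℕ → ℝ} (hr : Antitone r) (h0 : m 0 = 0) (k : ℕ)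
    (hm : ∀ i ≤ k, ∑ j ∈ range i, r j ≤ m i) :
    GG x y m (k + 1) - ∑ i ∈ range (k + 1), AA (r i) x y
      ≤ (m (k + 1) - ∑ j ∈ range (k + 1), r j) * (x + y - 2 * r k) := by
  induction k with
  | zero =>
    simp only [GG, AA, zero_add, range_one, sum_singleton, h0, Nat.cast_one]
    nlinarith [sq_nonneg (m 1 - r 0)]
  | succ k ih =>
    have h1 := ih fun i hi => hm i (by omega)
    have h2 := hm (k + 1) le_rfl
    have h3 := hr (Nat.le_succ k)
    have h4 := mul_nonneg (sub_nonneg.2 h2) (sub_nonneg.2 h3)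
    have e : GG x y m (k + 1 + 1) = GG x y m (k + 1) + (x + y) * (m (k + 1 + 1) - m (k + 1))
        - x * y - (m (k + 1 + 1) - m (k + 1)) ^ 2 := by
      simp only [GG, sum_range_succ _ (k + 1)]
      push_cast
      ring
    rw [e, sum_range_succ _ (k + 1), sum_range_succ _ (k + 1)]
    simp only [AA, Nat.succ_eq_add_one] at h1 h4 ⊢
    nlinarith [sq_nonneg (m (k + 1 + 1) - m (k + 1) - r (k + 1))]

theorem GG_le {x y : ℝ} {m r : ℕ → ℝ} (hr : Antitone r) (h0 : m 0 = 0) (k : ℕ)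
    (hm : ∀ i ≤ k, ∑ j ∈ range i, r j ≤ m i)
    (h : m k ≤ ∑ j ∈ range k, r j ∨ ∀ i < k, x + y ≤ 2 * r i) :
    GG x y m k ≤ ∑ i ∈ range k, AA (r i) x y := by
  rcases k with _ | k
  · simp [GG, h0]
  have h1 := abel (x := x) (y := y) hr h0 k fun i hi => hm i (by omega)
  have h2 := hm (k + 1) le_rfl
  rcases h with h | h
  · rw [le_antisymm h h2, sub_self, zero_mul] at h1
    rw [le_antisymm h h2] at *
    linarith
  · have := mul_nonneg (sub_nonneg.2 h2) (sub_nonneg.2 (h k (by omega)))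
    nlinarith

/-- The data of the scalar problem at one point. -/
structure PD (N j : ℕ) (x y x0 y0 E : ℝ) (m r ρ : ℕ → ℝ) : Prop where
  yx : y ≤ x
  yx0 : y0 ≤ x0
  anti : Antitone r
  mono : Monotone ρ
  rle : ∀ i, r i ≤ y0
  ρge : ∀ i, x0 ≤ ρ i
  m0 : m 0 = 0
  lo : ∀ i ≤ N, ∑ k ∈ range i, r k ≤ m i
  hi : ∀ i ≤ N, m i ≤ ∑ k ∈ range i, ρ k
  jN : j ≤ N
  tight : m j ≤ ∑ k ∈ range j, r k ∨ ∑ k ∈ range j, ρ k ≤ m j
  le : ∀ k, j ≤ k → k ≤ N → E ≤ GG x y m k

theorem PD.neg {N j : ℕ} {x y x0 y0 E : ℝ} {m r ρ : ℕ → ℝ} (h : PD N j x y x0 y0 E m r ρ) :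
    PD N j (-y) (-x) (-y0) (-x0) E (fun i => -m i) (fun i => -ρ i) fun i => -r i where
  yx := neg_le_neg h.yx
  yx0 := neg_le_neg h.yx0
  anti := h.mono.neg
  mono := h.anti.neg
  rle i := neg_le_neg (h.ρge i)
  ρge i := neg_le_neg (h.rle i)
  m0 := by simp [h.m0]
  lo i hi := by rw [sum_neg_distrib]; exact neg_le_neg (h.hi i hi)
  hi i hi := by rw [sum_neg_distrib]; exact neg_le_neg (h.lo i hi)
  jN := h.jN
  tight := by
    rw [sum_neg_distrib, sum_neg_distrib]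
    exact h.tight.symm.imp neg_le_neg neg_le_neg
  le k h1 h2 := by rw [GG_neg]; exact h.le k h1 h2

theorem PD.inner {N j : ℕ} {x y x0 y0 E : ℝ} {m r ρ : ℕ → ℝ} (h : PD N j x y x0 y0 E m r ρ)
    (hc : x < y0 ∨ m j ≤ ∑ k ∈ range j, r k) : E ≤ ∑ i ∈ range N, KI (r i) x y := by
  have yx := h.yx
  obtain ⟨k0, k1, k2, k3⟩ : ∃ k0 ≤ N, (∀ i < k0, x + y ≤ 2 * r i) ∧
      ∀ i, k0 ≤ i → i < N → r i ≤ x := by
    by_cases h1 : ∃ i, i < N ∧ 2 * r i < x + y
    · refine ⟨Nat.find h1, (Nat.find_spec h1).1.le, fun i hi => ?_, fun i hi _ => ?_⟩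
      · have := Nat.find_min h1 hi
        have h2 := (Nat.find_spec h1).1
        exact not_lt.1 fun h3 => this ⟨by omega, h3⟩
      · have := (Nat.find_spec h1).2
        linarith [h.anti hi]
    · exact ⟨N, le_rfl, fun i hi => not_lt.1 fun h3 => h1 ⟨i, hi, h3⟩, fun i h2 h3 => by omega⟩
  have S : ∀ k, k0 ≤ k → k ≤ N →
      ∑ i ∈ range k, KI (r i) x y ≤ ∑ i ∈ range N, KI (r i) x y := fun k a b =>
    sum_le_sum_of_subset_of_nonneg (range_subset_range.2 b) fun i hi hi' =>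
      KI_nonneg (k3 i (by simp only [mem_range] at hi'; omega) (mem_range.1 hi))
  have S' : ∀ k, ∑ i ∈ range k, AA (r i) x y ≤ ∑ i ∈ range k, KI (r i) x y := fun k =>
    sum_le_sum fun i _ => AA_le_KI yx
  have jN := h.jN
  rcases le_total j k0 with h1 | h1
  · exact (h.le k0 h1 k1).trans ((GG_le h.anti h.m0 k0 (fun i hi => h.lo i (by omega))
      (Or.inr k2)).trans ((S' _).trans (S _ le_rfl k1)))
  refine (h.le j le_rfl jN).trans (le_trans ?_ (S _ h1 jN))
  by_cases h2 : m j ≤ ∑ k ∈ range j, r k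
  · exact (GG_le h.anti h.m0 j (fun i hi => h.lo i (by omega)) (Or.inl h2)).trans (S' _)
  have h3 := hc.resolve_right h2
  have h4 := h.tight.resolve_left h2
  have h5 := GG_le (x := -y) (y := -x) h.neg.anti h.neg.m0 j
    (fun i hi => h.neg.lo i (by omega)) (Or.inl (by rw [sum_neg_distrib]; exact neg_le_neg h4))
  rw [GG_neg] at h5
  refine h5.trans (sum_le_sum fun i _ => ?_)
  rw [AA_neg]
  have a1 := h.rle i
  have a2 := h.ρge i
  have a3 := h.yx0
  rcases le_total (r i) x with h6 | h6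
  · exact (mul_nonpos_of_nonneg_of_nonpos (by linarith) (by linarith)).trans (KI_nonneg h6)
  · refine le_trans ?_ (AA_le_KI yx)
    unfold AA
    nlinarith [mul_nonneg (show 0 ≤ ρ i - r i by linarith) (show 0 ≤ ρ i + r i - x - y by linarith)]

theorem PD.le_of {N j : ℕ} {x y x0 y0 E M : ℝ} {m r ρ : ℕ → ℝ} (h : PD N j x y x0 y0 E m r ρ)
    (hO : y0 ≤ x → ∑ i ∈ range N, KO (ρ i) x y ≤ M)
    (hI : y ≤ x0 → ∑ i ∈ range N, KI (r i) x y ≤ M) : E ≤ M := by
  have o : x0 < y ∨ ∑ k ∈ range j, ρ k ≤ m j → E ≤ ∑ i ∈ range N, KO (ρ i) x y := fun hc => by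
    have := h.neg.inner (hc.imp neg_lt_neg fun h1 => by
      rw [sum_neg_distrib]; exact neg_le_neg h1)
    simpa only [KI_neg] using this
  have a1 := h.yx
  have a2 := h.yx0
  rcases lt_or_ge x y0 with h1 | h1
  · exact (h.inner (Or.inl h1)).trans (hI (by linarith))
  rcases lt_or_ge x0 y with h2 | h2
  · exact (o (Or.inl h2)).trans (hO h1)
  rcases h.tight with h3 | h3
  · exact (h.inner (Or.inr h3)).trans (hI h2)
  · exact (o (Or.inr h3)).trans (hO h1)

theorem last_tight {g : ℕ → ℂ} {T : ℕ → Prop} (h0 : T 0) (N : ℕ)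
    (h : ∀ k < N, g (k + 1) = g k ∨ T (k + 1)) :
    ∃ j ≤ N, T j ∧ ∀ k, j ≤ k → k ≤ N → g k = g N := by
  induction N with
  | zero => exact ⟨0, le_rfl, h0, fun k _ hk => by rw [Nat.le_zero.1 hk]⟩
  | succ N ih =>
    rcases h N (by omega) with h1 | h1
    · obtain ⟨j, j1, j2, j3⟩ := ih fun k hk => h k (by omega)
      refine ⟨j, by omega, j2, fun k a b => ?_⟩
      rcases b.lt_or_eq with b | b
      · rw [h1]; exact j3 k a (by omega)
      · rw [b]
    · exact ⟨N + 1, le_rfl, h1, fun k a b => by rw [le_antisymm b a]⟩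

theorem by_parts (P : ℕ → ℂ) (h0 : P 0 = 0) (n : ℕ) :
    ∑ k ∈ range n, ip (P (k + 2) - 2 * P (k + 1) + P k) (P (k + 1))
      = ip (P (n + 1) - P n) (P n) - ∑ k ∈ range n, ‖P (k + 1) - P k‖ ^ 2 := by
  induction n with
  | zero => simp [h0, ip]
  | succ n ih =>
    rw [sum_range_succ, sum_range_succ, ih, ← ip_self]
    simp only [ip, Complex.add_re, Complex.add_im, Complex.sub_re, Complex.sub_im, Complex.mul_re,
      Complex.mul_im, Complex.re_ofNat, Complex.im_ofNat]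
    ring

/-- The pointwise inequality. -/
theorem point {N : ℕ} {P : ℕ → ℂ} {ζ η : ℂ} {x y x0 y0 M : ℝ} {r ρ : ℕ → ℝ}
    (hs : x + y = ‖ζ + η‖) (hD : x * y = ip ζ η) (yx : y ≤ x) (yx0 : y0 ≤ x0)
    (anti : Antitone r) (mono : Monotone ρ) (rle : ∀ i, r i ≤ y0) (ρge : ∀ i, x0 ≤ ρ i)
    (h0 : P 0 = 0) (hN : P (N + 1) = P N + η)
    (lo : ∀ i ≤ N, ∑ k ∈ range i, r k ≤ ‖P i‖) (hi : ∀ i ≤ N, ‖P i‖ ≤ ∑ k ∈ range i, ρ k)
    (ht : ∀ k < N, P (k + 2) - 2 * P (k + 1) + P k = 0 ∨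
      ‖P (k + 1)‖ ≤ ∑ i ∈ range (k + 1), r i ∨ ∑ i ∈ range (k + 1), ρ i ≤ ‖P (k + 1)‖)
    (hO : y0 ≤ x → ∑ i ∈ range N, KO (ρ i) x y ≤ M)
    (hI : y ≤ x0 → ∑ i ∈ range N, KI (r i) x y ≤ M) :
    ip ζ (P N - N * η) + ∑ k ∈ range N, ip (P (k + 2) - 2 * P (k + 1) + P k) (P (k + 1)) ≤ M := by
  obtain ⟨j, j1, j2, j3⟩ := last_tight (g := fun k => P (k + 1) - P k)
    (T := fun k => ‖P k‖ ≤ ∑ i ∈ range k, r i ∨ ∑ i ∈ range k, ρ i ≤ ‖P k‖)
    (Or.inl (by simp [h0])) N fun k hk => (ht k hk).imp_left fun e => by linear_combination e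
  set E : ℕ → ℝ := fun k =>
    ip (ζ + η) (P k) - k * (x * y) - ∑ i ∈ range k, ‖P (i + 1) - P i‖ ^ 2 with hE
  have e1 : ∀ k, j ≤ k → k ≤ N → E k = E j := by
    intro k a
    induction k, a using Nat.le_induction with
    | base => exact fun _ => rfl
    | succ k a ih =>
      intro b
      have e2 : P (k + 1) - P k = η := by
        have := j3 k a (by omega)
        simp only [hN] at this
        linear_combination this
      have e3 : P (k + 1) = P k + η := by linear_combination e2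
      rw [← ih (by omega)]
      simp only [hE]
      rw [sum_range_succ, e2, e3, hD, ← ip_self]
      simp only [ip, Complex.add_re, Complex.add_im]
      push_cast
      ring
  have e4 : ip ζ (P N - N * η) + ∑ k ∈ range N, ip (P (k + 2) - 2 * P (k + 1) + P k) (P (k + 1))
      = E N := by
    rw [by_parts P h0, hN]
    simp only [hE]
    rw [hD]
    simp only [ip, Complex.add_re, Complex.add_im, Complex.sub_re, Complex.sub_im, Complex.mul_re,
      Complex.mul_im, Complex.natCast_re, Complex.natCast_im]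
    ring
  rw [e4]
  refine PD.le_of (j := j) (m := fun i => ‖P i‖) ⟨yx, yx0, anti, mono, rle, ρge, by simp [h0], lo,
    hi, j1, j2, fun k a b => ?_⟩ hO hI
  rw [e1 N j1 le_rfl, ← e1 k a b]
  have b1 := (le_abs_self _).trans (abs_ip_le (ζ + η) (P k))
  have b2 : ∑ i ∈ range k, (‖P (i + 1)‖ - ‖P i‖) ^ 2 ≤ ∑ i ∈ range k, ‖P (i + 1) - P i‖ ^ 2 :=
    sum_le_sum fun i _ => sq_le_sq' (abs_le.1 (abs_norm_sub_norm_le _ _)).1
      (abs_le.1 (abs_norm_sub_norm_le _ _)).2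
  simp only [hE, GG, hs]
  linarith

end Pool.Agent.MP_515557_an.H62
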