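import Pool.Agent.MP_515557_an.H62.Side
import Pool.Agent.MP_515557_an.H62.Point

/-! The integral inequality given by the chain of levelings. -/

set_option autoImplicit false

open MeasureTheory Set Metric Filter Topology

namespace Pool.Agent.MP_515557_an.H62

open H11.Mono

/-- The gradient as a complex number. -/
noncomputable def gr (f : ℂ → ℝ) (x : ℂ) : ℂ := ⟨fderiv ℝ f x 1, fderiv ℝ f x Complex.I⟩

theorem fderiv_eq_ip (f : ℂ → ℝ) (x z : ℂ) : fderiv ℝ f x z = ip (gr f x) z := by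
  have e : z = z.re • (1 : ℂ) + z.im • Complex.I := by apply Complex.ext <;> simp
  conv_lhs => rw [e, map_add, map_smul, map_smul]
  simp only [ip, gr, smul_eq_mul]
  ring

theorem df_gr {f : ℂ → ℝ} {x : ℂ} (h : DifferentiableAt ℝ f x) : Df f x (gr f x) := by
  intro c c0
  have h1 := (hasFDerivAt_iff_isLittleO_nhds_zero.1 h.hasFDerivAt).def c0
  obtain ⟨r, r0, hr⟩ := nhds_basis_closedBall.mem_iff.1 h1
  refine ⟨r, r0, fun z hz => ?_⟩
  rw [← fderiv_eq_ip]
  exact hr (mem_closedBall_zero_iff.2 hz)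

theorem gr_comb {F f g k : ℂ → ℝ} {x : ℂ} (a b c : ℝ) (e : ∀ z, F z = a * f z + b * g z + c * k z)
    (hf : DifferentiableAt ℝ f x) (hg : DifferentiableAt ℝ g x) (hk : DifferentiableAt ℝ k x) :
    gr F x = a * gr f x + b * gr g x + c * gr k x := by
  have h := ((hf.hasFDerivAt.const_mul a).add (hg.hasFDerivAt.const_mul b)).add
    (hk.hasFDerivAt.const_mul c)
  have e' : fderiv ℝ F x = a • fderiv ℝ f x + b • fderiv ℝ g x + c • fderiv ℝ k x := by
    rw [funext e]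
    exact h.fderiv
  apply Complex.ext <;> simp [gr, e']

theorem chain {L L' R x0 y0 : ℝ} {η : ℂ} {f v X Y M : ℂ → ℝ} {N : ℕ} {r ρ : ℕ → ℝ}
    (hf : Lp L' f) (hv : Lp L v) (hfar : ∀ x, R ≤ ‖x‖ → v x = ip η x)
    (hs : ∀ x, X x + Y x = ‖Complex.I * gr f x + gr v x‖)
    (hD : ∀ x, X x * Y x = ip (Complex.I * gr f x) (gr v x)) (yx : ∀ x, Y x ≤ X x)
    (h1 : y0 ≤ ‖η‖) (h2 : ‖η‖ ≤ x0) (anti : Antitone r) (mono : Monotone ρ)
    (rle : ∀ i, r i ≤ y0) (ρge : ∀ i, x0 ≤ ρ i)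
    (hO : ∀ x, y0 ≤ X x → ∑ i ∈ Finset.range N, KO (ρ i) (X x) (Y x) ≤ M x)
    (hI : ∀ x, Y x ≤ x0 → ∑ i ∈ Finset.range N, KI (r i) (X x) (Y x) ≤ M x)
    (hM : IntegrableOn M (closedBall 0 R)) : 0 ≤ ∫ x in closedBall 0 R, M x := by
  obtain ⟨Φ, δ, Λ, a1, a2, a3, a4, a5⟩ := level N hv hfar
    (α := fun i => ∑ k ∈ Finset.range i, r k) (β := fun i => ∑ k ∈ Finset.range i, ρ k)
    (fun i => by
      simpa using Finset.sum_le_card_nsmul (Finset.range i) r _ fun k _ => (rle k).trans h1)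
    (fun i => by
      simpa using Finset.card_nsmul_le_sum (Finset.range i) ρ _ fun k _ => h2.trans (ρge k))
  set σ : ℂ → ℝ := fun x => Φ N x - N * v x with hσ
  have s1 : Lp (N * L + N * L) σ := fun x y => by
    have := mul_le_mul_of_nonneg_left (hv.neg x y) (Nat.cast_nonneg (α := ℝ) N)
    simp only [hσ]
    linarith [a1.lip N x y]
  have s2 : ∀ x, R ≤ ‖x‖ → σ x = 0 := fun x hx => by
    simp only [hσ, a1.far N x hx, hfar x hx, nat_ip, sub_self]
  have d2 : ∀ k x, R ≤ ‖x‖ → δ k x = 0 := fun k x hx => by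
    simp only [a3, a1.far _ x hx, nat_ip]
    push_cast
    ring
  have z0 : Φ 0 = fun _ => 0 := funext fun x => by simpa [ip] using a1.abs_le 0 x
  set ℓ : ℂ → ℝ := fun x => fderiv ℝ σ x Complex.I * fderiv ℝ f x 1
    - fderiv ℝ σ x 1 * fderiv ℝ f x Complex.I
    + ∑ k ∈ Finset.range N, (fderiv ℝ (δ k) x 1 * fderiv ℝ (Φ (k + 1)) x 1
      + fderiv ℝ (δ k) x Complex.I * fderiv ℝ (Φ (k + 1)) x Complex.I) with hℓ
  have i1 := integrable_dd s1 hf s2
  have i2 := fun k => integrable_dd (a4 k) (a1.lip (k + 1)) (d2 k)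
  have i3 : ∀ k, Integrable fun x => fderiv ℝ (δ k) x 1 * fderiv ℝ (Φ (k + 1)) x 1
      + fderiv ℝ (δ k) x Complex.I * fderiv ℝ (Φ (k + 1)) x Complex.I :=
    fun k => (i2 k 1 1).add (i2 k Complex.I Complex.I)
  have i4 : Integrable fun x => ∑ k ∈ Finset.range N,
      (fderiv ℝ (δ k) x 1 * fderiv ℝ (Φ (k + 1)) x 1
        + fderiv ℝ (δ k) x Complex.I * fderiv ℝ (Φ (k + 1)) x Complex.I) :=
    integrable_finsetSum _ fun k _ => i3 k
  have i5 : Integrable fun x => fderiv ℝ σ x Complex.I * fderiv ℝ f x 1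
      - fderiv ℝ σ x 1 * fderiv ℝ f x Complex.I := (i1 Complex.I 1).sub (i1 1 Complex.I)
  have l1 : 0 ≤ ∫ x, ℓ x := by
    simp only [hℓ]
    rw [integral_add i5 i4, integral_sub (i1 _ _) (i1 _ _), div_free s1 hf s2, sub_self, zero_add,
      integral_finsetSum _ fun k _ => i3 k]
    refine Finset.sum_nonneg fun k hk => ?_
    obtain ⟨b1, b2, -⟩ := a5 k (Finset.mem_range.1 hk)
    rw [integral_add (i2 _ _ _) (i2 _ _ _)]
    exact add_nonneg (energy (a4 k) (a1.lip _) (d2 k) b1 b2 _)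
      (energy (a4 k) (a1.lip _) (d2 k) b1 b2 _)
  rw [← setIntegral_eq_integral_of_forall_compl_eq_zero (s := closedBall 0 R) fun x hx => by
    have : R < ‖x‖ := by simpa using hx
    simp [hℓ, fderiv_far s2 this, fun k => fderiv_far (d2 k) this]] at l1
  refine l1.trans (integral_mono_ae (i5.add i4).integrableOn hM (ae_restrict_of_ae ?_))
  filter_upwards [ae_all_iff.2 fun i => (a1.lip i).ae, hv.ae,
    ae_all_iff.2 fun k => ae_level (a4 k).continuous] with x b1 b2 b3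
  have g1 : gr σ x = gr (Φ N) x - N * gr v x := by
    rw [gr_comb 1 (-N) 0 (fun z => by simp only [hσ]; ring) (b1 N) b2 b2]
    push_cast
    ring
  have g2 : ∀ k, gr (δ k) x = gr (Φ (k + 2)) x - 2 * gr (Φ (k + 1)) x + gr (Φ k) x := fun k => by
    rw [gr_comb 1 (-2) 1 (fun z => by rw [a3]; ring) (b1 (k + 2)) (b1 (k + 1)) (b1 k)]
    push_cast
    ring
  have g3 : gr (Φ (N + 1)) x = gr (Φ N) x + gr v x := by
    rw [gr_comb 1 1 0 (fun z => by rw [a2]; ring) (b1 N) b2 b2]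
    push_cast
    ring
  have g4 : gr (Φ 0) x = 0 := by apply Complex.ext <;> simp [gr, z0]
  have g5 := fun k hk => (a5 k hk).2.2 x _ (df_gr (b1 (k + 1)))
  have := point (P := fun i => gr (Φ i) x) (hs x) (hD x) (yx x) (h1.trans h2) anti mono rle ρge
    g4 g3 (fun i hi => by
      rcases i with _ | i
      · simp
      · exact (g5 i hi).1) (fun i hi => by
      rcases i with _ | i
      · simp [g4]
      · exact (g5 i hi).2.1) (fun k hk => (g5 k hk).2.2.imp_left fun h0 => by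
      rw [← g2]
      apply Complex.ext <;> simp [gr, b3 k h0]) (hO x) (hI x)
  simp only [← g1, ← g2] at this
  refine le_trans (le_of_eq ?_) this
  simp only [hℓ, ip, gr, Complex.mul_re, Complex.mul_im, Complex.I_re, Complex.I_im]
  ring

end Pool.Agent.MP_515557_an.H62
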