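import Mathlib

/-! Integration by parts for Lipschitz functions of the plane through difference quotients. -/

set_option autoImplicit false

open MeasureTheory Set Metric Filter Topology

namespace Pool.Agent.MP_515557_an.H62

/-- Lipschitz bound with a real constant. -/
def Lp (L : ℝ) (f : ℂ → ℝ) : Prop := ∀ x y, f x ≤ f y + L * ‖x - y‖

theorem Lp.lip {L : ℝ} {f : ℂ → ℝ} (h : Lp L f) : LipschitzWith L.toNNReal f :=
  LipschitzWith.of_le_add_mul' L fun x y => by rw [dist_eq_norm]; exact h x y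

theorem Lp.continuous {L : ℝ} {f : ℂ → ℝ} (h : Lp L f) : Continuous f := h.lip.continuous

theorem Lp.nonneg {L : ℝ} {f : ℂ → ℝ} (h : Lp L f) : 0 ≤ L := by
  have h1 := h 1 0
  have h2 := h 0 1
  simp only [sub_zero, zero_sub, norm_neg, norm_one, mul_one] at h1 h2
  linarith

theorem Lp.abs_le {L : ℝ} {f : ℂ → ℝ} (h : Lp L f) (x a : ℂ) : |f (x + a) - f x| ≤ L * ‖a‖ := by
  have h1 := h (x + a) x
  have h2 := h x (x + a)
  simp only [add_sub_cancel_left, sub_add_cancel_left, norm_neg] at h1 h2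
  exact _root_.abs_le.2 ⟨by linarith, by linarith⟩

theorem Lp.neg {L : ℝ} {f : ℂ → ℝ} (h : Lp L f) : Lp L fun x => -f x := fun x y => by
  have := h y x
  rw [norm_sub_rev] at this
  beta_reduce
  linarith

theorem Lp.ae {L : ℝ} {f : ℂ → ℝ} (h : Lp L f) : ∀ᵐ x, DifferentiableAt ℝ f x :=
  h.lip.ae_differentiableAt

theorem Lp.fderiv_le {L : ℝ} {f : ℂ → ℝ} (h : Lp L f) (x e : ℂ) : |fderiv ℝ f x e| ≤ L * ‖e‖ := by
  have h1 := norm_fderiv_le_of_lipschitz ℝ (x₀ := x) h.lip
  rw [Real.coe_toNNReal _ h.nonneg] at h1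
  exact ((fderiv ℝ f x).le_opNorm e).trans (mul_le_mul_of_nonneg_right h1 (norm_nonneg _))

theorem integrable_ind (R C : ℝ) : Integrable ((closedBall (0 : ℂ) R).indicator fun _ => C) :=
  (integrable_indicator_iff measurableSet_closedBall).2
    (integrableOn_const (isCompact_closedBall _ _).measure_lt_top.ne)

theorem le_ind {R C v : ℝ} {x : ℂ} (h1 : |v| ≤ C) (h2 : R < ‖x‖ → v = 0) :
    ‖v‖ ≤ (closedBall (0 : ℂ) R).indicator (fun _ => C) x := by
  by_cases hx : x ∈ closedBall (0 : ℂ) R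
  · rwa [indicator_of_mem hx]
  · rw [indicator_of_notMem hx, h2 (by simpa using hx), norm_zero]

theorem fderiv_far {σ : ℂ → ℝ} {R : ℝ} (hs : ∀ x, R ≤ ‖x‖ → σ x = 0) {x : ℂ} (hx : R < ‖x‖) :
    fderiv ℝ σ x = 0 := by
  have : σ =ᶠ[𝓝 x] fun _ => 0 := by
    filter_upwards [continuous_norm.continuousAt.eventually (lt_mem_nhds hx)] with y hy
    exact hs y hy.le
  rw [this.fderiv_eq]
  simp

theorem integrable_dd {σ f : ℂ → ℝ} {L L' R : ℝ} (hσ : Lp L σ) (hf : Lp L' f)
    (hs : ∀ x, R ≤ ‖x‖ → σ x = 0) (e e' : ℂ) :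
    Integrable fun x => fderiv ℝ σ x e * fderiv ℝ f x e' := by
  refine (integrable_ind R (L * ‖e‖ * (L' * ‖e'‖))).mono'
    ((measurable_fderiv_apply_const ℝ σ e).mul
      (measurable_fderiv_apply_const ℝ f e')).aestronglyMeasurable
    (Eventually.of_forall fun x => le_ind ?_ fun hx => by simp [fderiv_far hs hx])
  rw [abs_mul]
  exact mul_le_mul (hσ.fderiv_le x e) (hf.fderiv_le x e') (abs_nonneg _)
    (mul_nonneg hσ.nonneg (norm_nonneg _))

theorem dq_le {f : ℂ → ℝ} {L : ℝ} (hf : Lp L f) {h : ℝ} (h0 : 0 < h) (x e : ℂ) :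
    |h⁻¹ * (f (x + h • e) - f x)| ≤ L * ‖e‖ := by
  have := hf.abs_le x (h • e)
  rw [norm_smul, Real.norm_eq_abs, abs_of_pos h0] at this
  rw [abs_mul, abs_of_pos (inv_pos.2 h0), inv_mul_le_iff₀ h0]
  linarith

theorem dq_tendsto {σ f : ℂ → ℝ} {L L' R : ℝ} (hσ : Lp L σ) (hf : Lp L' f)
    (hs : ∀ x, R ≤ ‖x‖ → σ x = 0) (e e' : ℂ) :
    Tendsto (fun h : ℝ => ∫ x, h⁻¹ * (σ (x + h • e) - σ x) * (h⁻¹ * (f (x + h • e') - f x)))
      (𝓝[>] 0) (𝓝 (∫ x, fderiv ℝ σ x e * fderiv ℝ f x e')) := by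
  have c1 := hσ.continuous
  have c2 := hf.continuous
  refine tendsto_integral_filter_of_dominated_convergence _
    (Eventually.of_forall fun h => Continuous.aestronglyMeasurable (by fun_prop)) ?_
    (integrable_ind (R + ‖e‖) (L * ‖e‖ * (L' * ‖e'‖))) ?_
  · filter_upwards [Ioo_mem_nhdsGT (zero_lt_one' ℝ)] with h hh
    refine Eventually.of_forall fun x => le_ind ?_ fun hx => ?_
    · rw [abs_mul]
      exact mul_le_mul (dq_le hσ hh.1 x e) (dq_le hf hh.1 x e') (abs_nonneg _)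
        (mul_nonneg hσ.nonneg (norm_nonneg _))
    · have a1 := norm_sub_le (x + h • e) (h • e)
      rw [add_sub_cancel_right, norm_smul, Real.norm_eq_abs, abs_of_pos hh.1] at a1
      have a2 := mul_le_mul_of_nonneg_right hh.2.le (norm_nonneg e)
      rw [hs x (by linarith [norm_nonneg e]), hs (x + h • e) (by linarith)]
      simp
  · filter_upwards [hσ.ae, hf.ae] with x h1 h2
    exact (h1.hasFDerivAt.hasLineDerivAt e).tendsto_slope_zero_right.mul
      (h2.hasFDerivAt.hasLineDerivAt e').tendsto_slope_zero_right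

theorem integrable_cs {σ G : ℂ → ℝ} {R : ℝ} (hσ : Continuous σ) (hG : Continuous G)
    (hs : ∀ x, R ≤ ‖x‖ → σ x = 0) : Integrable fun x => σ x * G x :=
  (hσ.mul hG).integrable_of_hasCompactSupport (HasCompactSupport.intro (isCompact_closedBall 0 R)
    fun x hx => by simp [hs x (le_of_lt (by simpa using hx))])

theorem shift {σ G : ℂ → ℝ} {R : ℝ} (hσ : Continuous σ) (hG : Continuous G)
    (hs : ∀ x, R ≤ ‖x‖ → σ x = 0) (a : ℂ) :
    ∫ x, (σ (x + a) - σ x) * G x = ∫ x, σ x * (G (x - a) - G x) := by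
  have i1 := integrable_cs hσ hG hs
  have i2 := integrable_cs (G := fun x => G (x - a)) hσ (by fun_prop) hs
  have i3 := i2.comp_add_right a
  have e := integral_add_right_eq_self (μ := volume) (fun x => σ x * G (x - a)) a
  simp only [add_sub_cancel_right] at i3 e
  simp only [sub_mul, mul_sub]
  rw [integral_sub i3 i1, integral_sub i2 i1, e]

theorem dq_eq {σ f : ℂ → ℝ} {R : ℝ} (hσ : Continuous σ) (hf : Continuous f)
    (hs : ∀ x, R ≤ ‖x‖ → σ x = 0) (h : ℝ) (a b : ℂ) :
    ∫ x, h⁻¹ * (σ (x + a) - σ x) * (h⁻¹ * (f (x + b) - f x))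
      = ∫ x, σ x * (h⁻¹ * h⁻¹ * (f (x - a + b) - f (x - a) - f (x + b) + f x)) := by
  have := shift (G := fun x => h⁻¹ * h⁻¹ * (f (x + b) - f x)) hσ (by fun_prop) hs a
  refine Eq.trans ?_ (this.trans ?_) <;> refine integral_congr_ae (Eventually.of_forall fun x => ?_)
    <;> beta_reduce <;> ring

/-- The Jacobian determinant is a null Lagrangian. -/
theorem div_free {σ f : ℂ → ℝ} {L L' R : ℝ} (hσ : Lp L σ) (hf : Lp L' f)
    (hs : ∀ x, R ≤ ‖x‖ → σ x = 0) (e e' : ℂ) :
    ∫ x, fderiv ℝ σ x e * fderiv ℝ f x e' = ∫ x, fderiv ℝ σ x e' * fderiv ℝ f x e := by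
  have h1 := dq_tendsto hσ hf hs e (-e')
  have h2 := dq_tendsto hσ hf hs e' (-e)
  simp only [dq_eq hσ.continuous hf.continuous hs] at h1 h2
  simp only [smul_neg, ← sub_eq_add_neg, map_neg, mul_neg, integral_neg] at h1 h2
  refine neg_injective (tendsto_nhds_unique h1 (h2.congr fun h => ?_))
  refine integral_congr_ae (Eventually.of_forall fun x => ?_)
  beta_reduce
  rw [sub_right_comm x (h • e')]
  ring

/-- The energy inequality. -/
theorem energy {δ φ : ℂ → ℝ} {L L' R : ℝ} (hδ : Lp L δ) (hφ : Lp L' φ)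
    (hs : ∀ x, R ≤ ‖x‖ → δ x = 0)
    (hc : ∀ x a, L * ‖a‖ < δ x → φ (x + a) + φ (x - a) ≤ 2 * φ x)
    (hv : ∀ x a, L * ‖a‖ < -δ x → 2 * φ x ≤ φ (x + a) + φ (x - a)) (e : ℂ) :
    0 ≤ ∫ x, fderiv ℝ δ x e * fderiv ℝ φ x e := by
  have c1 := hδ.continuous
  have c2 := hφ.continuous
  have L0 := hδ.nonneg
  have h1 := dq_tendsto hδ hφ hs e e
  simp only [dq_eq c1 c2 hs, sub_add_cancel] at h1
  set J : ℝ → ℂ → ℝ := fun h x =>
    δ x * (h⁻¹ * h⁻¹ * (φ x - φ (x - h • e) - φ (x + h • e) + φ x)) with hJ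
  have pos : ∀ h x, L * ‖h • e‖ < |δ x| → 0 ≤ J h x := fun h x hx => by
    have a0 := mul_nonneg L0 (norm_nonneg (h • e))
    rcases lt_abs.1 hx with a | a
    · exact mul_nonneg (by linarith) (mul_nonneg (mul_self_nonneg _) (by linarith [hc x _ a]))
    · exact mul_nonneg_of_nonpos_of_nonpos (by linarith)
        (mul_nonpos_of_nonneg_of_nonpos (mul_self_nonneg _) (by linarith [hv x _ a]))
  have iJ : ∀ h, Integrable (J h) := fun h => integrable_cs c1 (by fun_prop) hs
  have h2 : Tendsto (fun h : ℝ => ∫ x, min (J h x) 0) (𝓝[>] 0) (𝓝 (∫ _ : ℂ, (0 : ℝ))) := by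
    refine tendsto_integral_filter_of_dominated_convergence _
      (Eventually.of_forall fun h => Continuous.aestronglyMeasurable (by simp only [hJ]; fun_prop))
      ?_ (integrable_ind R (L * ‖e‖ * (2 * (L' * ‖e‖)))) (Eventually.of_forall fun x => ?_)
    · filter_upwards [self_mem_nhdsWithin] with h hh
      have h0 : 0 < h := hh
      refine Eventually.of_forall fun x => le_ind ?_ fun hx => by simp [hJ, hs x hx.le]
      rcases lt_or_ge (L * ‖h • e‖) |δ x| with a | a
      · rw [min_eq_right (pos h x a), abs_zero]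
        have := hφ.nonneg
        positivity
      refine le_trans (b := |J h x|) ?_ ?_
      · rcases le_total (J h x) 0 with b | b
        · rw [min_eq_left b]
        · rw [min_eq_right b, abs_zero]; exact abs_nonneg _
      have b1 := abs_le.1 (dq_le hφ h0 x e)
      have b2 := abs_le.1 (dq_le hφ h0 x (-e))
      rw [smul_neg, ← sub_eq_add_neg, norm_neg] at b2
      rw [norm_smul, Real.norm_eq_abs, abs_of_pos h0] at a
      rw [show J h x = h⁻¹ * δ x * (h⁻¹ * (φ x - φ (x - h • e) - φ (x + h • e) + φ x)) by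
        simp only [hJ]; ring, abs_mul]
      refine mul_le_mul ?_ (abs_le.2 ⟨by linarith [b1.2, b2.2], by linarith [b1.1, b2.1]⟩)
        (abs_nonneg _) (by positivity)
      rw [abs_mul, abs_of_pos (inv_pos.2 h0), inv_mul_le_iff₀ h0]
      linarith
    · refine tendsto_const_nhds.congr' ?_
      by_cases hx : δ x = 0
      · exact Eventually.of_forall fun h => by simp [hJ, hx]
      have t : Tendsto (fun h : ℝ => L * ‖h • e‖) (𝓝[>] 0) (𝓝 0) :=
        tendsto_nhdsWithin_of_tendsto_nhds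
          ((by fun_prop : Continuous fun h : ℝ => L * ‖h • e‖).tendsto' 0 0 (by simp))
      filter_upwards [t.eventually (gt_mem_nhds (abs_pos.2 hx))] with h hh
      exact (min_eq_right (pos h x hh)).symm
  rw [integral_zero] at h2
  refine le_of_tendsto_of_tendsto' h2 h1 fun h => ?_
  exact integral_mono ((iJ h).inf (integrable_zero _ _ _)) (iJ h) fun x => min_le_left _ _

theorem ae_level {δ : ℂ → ℝ} (hδ : Continuous δ) : ∀ᵐ x, δ x = 0 → fderiv ℝ δ x = 0 := by
  set s : Set ℂ := {x | δ x = 0} ∩ {x | DifferentiableAt ℝ δ x} with hs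
  have hsm : MeasurableSet s := (isClosed_eq hδ continuous_const).measurableSet.inter
    (measurableSet_of_differentiableAt ℝ δ)
  have happ : ApproximatesLinearOn (fun x => Complex.ofRealCLM (δ x)) (0 : ℂ →L[ℝ] ℂ) s 0 := by
    intro x hx y hy
    have a : δ x = 0 := hx.1
    have b : δ y = 0 := hy.1
    simp [a, b]
  have := happ.norm_fderiv_sub_le volume hsm (fun x => Complex.ofRealCLM.comp (fderiv ℝ δ x))
    (fun x hx => (Complex.ofRealCLM.hasFDerivAt.comp x hx.2.hasFDerivAt).hasFDerivWithinAt)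
  rw [ae_restrict_iff' hsm] at this
  filter_upwards [this] with x hx h0
  by_cases hd : DifferentiableAt ℝ δ x
  · have h1 : Complex.ofRealCLM.comp (fderiv ℝ δ x) = 0 := by simpa using hx ⟨h0, hd⟩
    ext v
    simpa using congrArg (fun T : ℂ →L[ℝ] ℂ => T v) h1
  · exact fderiv_zero_of_not_differentiableAt hd

end Pool.Agent.MP_515557_an.H62
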