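import Pool.Agent.MP_515557_an.H62.Top
import Pool.Agent.MP_515557_an.H62.Energy

/-! A chain of levelings: fixed points of a monotone operator on a lattice of Lipschitz
functions, and their limit. -/

set_option autoImplicit false

open Set Metric Filter Topology

namespace Pool.Agent.MP_515557_an.H62

open H11.Mono

/-- Upper bounds on a circle of radius `h` after subtracting a slope from `K`. -/
def upS (K : Set ℂ) (h : ℝ) (φ : ℂ → ℝ) (x : ℂ) : Set ℝ :=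
  {c | ∃ b ∈ K, ∀ y, ‖y‖ = h → φ (x + y) - ip b y ≤ c}

/-- The least such bound. -/
noncomputable def up (K : Set ℂ) (h : ℝ) (φ : ℂ → ℝ) (x : ℂ) : ℝ := sInf (upS K h φ x)

variable {K : Set ℂ} {h L L' : ℝ} {φ ψ : ℂ → ℝ}

theorem upS_ne (hK : K.Nonempty) (hφ : Lp L φ) (x : ℂ) : (upS K h φ x).Nonempty := by
  obtain ⟨b, hb⟩ := hK
  refine ⟨φ x + L * h + ‖b‖ * h, b, hb, fun y hy => ?_⟩
  have h1 := abs_le.1 (hφ.abs_le x y)
  have h2 := abs_le.1 (abs_ip_le b y)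
  rw [hy] at h1 h2
  linarith [h1.2, h2.1]

theorem upS_bdd (h0 : 0 < h) (hφ : Lp L φ) (x : ℂ) : BddBelow (upS K h φ x) := by
  refine ⟨φ x - L * h, ?_⟩
  rintro c ⟨b, -, hb⟩
  have n : ‖(h : ℂ)‖ = h := by rw [Complex.norm_real, Real.norm_eq_abs, abs_of_pos h0]
  have h1 := hb h n
  have h2 := hb (-h) (by rw [norm_neg, n])
  have h3 := abs_le.1 (hφ.abs_le x h)
  have h4 := abs_le.1 (hφ.abs_le x (-h))
  rw [norm_neg] at h4
  rw [n] at h3 h4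
  rw [ip_neg] at h2
  linarith [h3.1, h4.1]

theorem up_le (hK : K.Nonempty) (h0 : 0 < h) (hφ : Lp L φ) (hψ : Lp L' ψ) {x x' : ℂ} {m : ℝ}
    (hm : ∀ y, φ (x + y) ≤ ψ (x' + y) + m) : up K h φ x ≤ up K h ψ x' + m := by
  rw [← sub_le_iff_le_add]
  refine le_csInf (upS_ne hK hψ x') ?_
  rintro c ⟨b, hb, hc⟩
  rw [sub_le_iff_le_add]
  exact csInf_le (upS_bdd h0 hφ x) ⟨b, hb, fun y hy => by linarith [hc y hy, hm y]⟩

theorem Lp.up (hK : K.Nonempty) (h0 : 0 < h) (hφ : Lp L φ) : Lp L (up K h φ) := fun x x' =>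
  up_le hK h0 hφ hφ fun y => by simpa using hφ (x + y) (x' + y)

theorem perp (h0 : 0 < h) (q x : ℂ) : ∃ y, ‖y‖ = h ∧ ip q y = 0 ∧ 0 ≤ ip x y := by
  obtain ⟨n, n0, hn⟩ : ∃ n : ℂ, n ≠ 0 ∧ ip q n = 0 := by
    by_cases hq : q = 0
    · exact ⟨1, one_ne_zero, by simp [hq, ip]⟩
    · exact ⟨Complex.I * q, mul_ne_zero Complex.I_ne_zero hq, by simp [ip]; ring⟩
  have n1 := norm_pos_iff.2 n0
  have e : ‖((h / ‖n‖ : ℝ) : ℂ) * n‖ = h := by
    rw [norm_mul, Complex.norm_real, Real.norm_eq_abs, abs_of_pos (div_pos h0 n1)]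
    field_simp
  have e2 : ip q ((h / ‖n‖ : ℝ) * n) = 0 := by rw [ip_mul, hn, mul_zero]
  rcases le_total 0 (ip x ((h / ‖n‖ : ℝ) * n)) with h1 | h1
  · exact ⟨_, e, e2, h1⟩
  · exact ⟨-_, by rw [norm_neg, e], by rw [ip_neg, e2, neg_zero], by rw [ip_neg]; linarith⟩

theorem far_le_up (hK : K.Nonempty) (h0 : 0 < h) (hφ : Lp L φ) {R : ℝ} {η : ℂ}
    (hf : ∀ x, R ≤ ‖x‖ → φ x = ip η x) {x : ℂ} (hx : R ≤ ‖x‖) : ip η x ≤ up K h φ x := by
  refine le_csInf (upS_ne hK hφ x) ?_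
  rintro c ⟨b, -, hc⟩
  obtain ⟨y, y1, y2, y3⟩ := perp h0 (η - b) x
  have h1 := hc y y1
  have h2 : ‖x‖ ≤ ‖x + y‖ := by
    refine le_of_sq_le_sq ?_ (norm_nonneg _)
    rw [← ip_self, ← ip_self]
    simp only [ip, Complex.add_re, Complex.add_im] at y3 ⊢
    nlinarith [mul_self_nonneg y.re, mul_self_nonneg y.im]
  rw [hf _ (hx.trans h2), ip_add] at h1
  rw [sub_ip] at y2
  linarith

theorem dn_le_up (hK : K.Nonempty) (h0 : 0 < h) (hφ : Lp L φ) (x : ℂ) :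
    -up K h (fun z => -φ z) x ≤ up K h φ x := by
  refine le_csInf (upS_ne hK hφ x) ?_
  rintro c ⟨b, -, hc⟩
  rw [neg_le]
  refine le_csInf (upS_ne hK hφ.neg x) ?_
  rintro c' ⟨b', -, hc'⟩
  obtain ⟨y, y1, y2, -⟩ := perp h0 (b - -b') x
  rw [sub_ip, neg_ip] at y2
  linarith [hc y y1, hc' y y1]

theorem kt {α : Type*} [PartialOrder α] {X : Set α} {T : α → α}
    (hs : ∀ S ⊆ X, S.Nonempty → ∃ u ∈ X, IsLUB S u) (hb : ∃ b ∈ X, ∀ a ∈ X, b ≤ a)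
    (hT : ∀ a ∈ X, T a ∈ X) (hm : MonotoneOn T X) : ∃ u ∈ X, T u = u := by
  obtain ⟨b, b1, b2⟩ := hb
  obtain ⟨u, u1, u2⟩ := hs {a | a ∈ X ∧ a ≤ T a} (fun a ha => ha.1) ⟨b, b1, b2 _ (hT b b1)⟩
  have h1 : u ≤ T u := u2.2 fun a ha => ha.2.trans (hm ha.1 u1 (u2.1 ha))
  exact ⟨u, u1, le_antisymm (u2.1 ⟨hT u u1, hm u1 (hT u u1) h1⟩) h1⟩

/-- The lattice of chains. -/
structure InL (L R : ℝ) (η : ℂ) (Φ : ℕ → ℂ → ℝ) : Prop where
  lip : ∀ i : ℕ, Lp (i * L) (Φ i)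
  far : ∀ (i : ℕ) x, R ≤ ‖x‖ → Φ i x = ip (i * η) x

variable {R : ℝ} {η : ℂ} {Φ : ℕ → ℂ → ℝ}

theorem nat_ip (i : ℕ) (η x : ℂ) : ip (i * η) x = i * ip η x := by simp [ip]; ring

theorem InL.neg (hΦ : InL L R η Φ) : InL L R (-η) fun i x => -Φ i x :=
  ⟨fun i => (hΦ.lip i).neg, fun i x hx => by rw [hΦ.far i x hx, mul_neg, neg_ip]⟩

theorem InL.abs_le (hΦ : InL L R η Φ) (i : ℕ) (x : ℂ) :
    |Φ i x - ip (i * η) R| ≤ i * L * ‖x - R‖ := by
  have := (hΦ.lip i).abs_le R (x - R)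
  rwa [add_sub_cancel, hΦ.far i R (by rw [Complex.norm_real]; exact le_abs_self R)] at this

theorem exists_lub {S : Set (ℕ → ℂ → ℝ)} (hS : S ⊆ {Φ | InL L R η Φ}) (hn : S.Nonempty) :
    ∃ u ∈ {Φ | InL L R η Φ}, IsLUB S u := by
  have bd : ∀ i x, BddAbove ((fun Φ : ℕ → ℂ → ℝ => Φ i x) '' S) := fun i x =>
    ⟨ip (i * η) R + i * L * ‖x - R‖, by
      rintro _ ⟨Φ, hΦ, rfl⟩
      linarith [(abs_le.1 (InL.abs_le (hS hΦ) i x)).2]⟩
  have le : ∀ Φ ∈ S, ∀ i x, Φ i x ≤ sSup ((fun Φ : ℕ → ℂ → ℝ => Φ i x) '' S) :=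
    fun Φ hΦ i x => le_csSup (bd i x) ⟨Φ, hΦ, rfl⟩
  refine ⟨fun i x => sSup ((fun Φ : ℕ → ℂ → ℝ => Φ i x) '' S), ⟨fun i x y => ?_, fun i x hx => ?_⟩,
    fun Φ hΦ i x => le Φ hΦ i x, fun w hw i x => ?_⟩
  · refine csSup_le (hn.image _) ?_
    rintro _ ⟨Φ, hΦ, rfl⟩
    linarith [InL.lip (hS hΦ) i x y, le Φ hΦ i y]
  · refine le_antisymm (csSup_le (hn.image _) ?_) ?_
    · rintro _ ⟨Φ, hΦ, rfl⟩
      exact (InL.far (hS hΦ) i x hx).le
    · obtain ⟨Φ, hΦ⟩ := hn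
      exact (InL.far (hS hΦ) i x hx).ge.trans (le Φ hΦ i x)
  · refine csSup_le (hn.image _) ?_
    rintro _ ⟨Φ, hΦ, rfl⟩
    exact hw hΦ i x

/-- The monotone operator on chains. -/
noncomputable def TT (K : ℕ → Set ℂ) (h : ℝ) (N : ℕ) (v : ℂ → ℝ) (Φ : ℕ → ℂ → ℝ) : ℕ → ℂ → ℝ
  | 0 => Φ 0
  | i + 1 => fun x => if i < N then max (-up (K (i + 1)) h (fun z => -Φ (i + 1) z) x)
      (min ((Φ i x + Φ (i + 2) x) / 2) (up (K (i + 1)) h (Φ (i + 1)) x)) else Φ i x + v x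

theorem exists_fix {K : ℕ → Set ℂ} (hK : ∀ i, (K i).Nonempty) (h0 : 0 < h) (N : ℕ) {v : ℂ → ℝ}
    (hv : Lp L v) (hf : ∀ x, R ≤ ‖x‖ → v x = ip η x) :
    ∃ Φ, InL L R η Φ ∧ TT K h N v Φ = Φ := by
  have h1 : InL L R η fun i x => i * v x :=
    ⟨fun i x y => by
      have := mul_le_mul_of_nonneg_left (hv x y) (Nat.cast_nonneg (α := ℝ) i)
      linarith, fun i x hx => by rw [nat_ip, hf x hx]⟩
  refine kt (X := {Φ | InL L R η Φ}) (fun S => exists_lub) ?_ (fun Φ hΦ => ⟨?_, ?_⟩) ?_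
  · obtain ⟨u, u1, u2⟩ := exists_lub (L := L) (R := R) (η := -η) subset_rfl ⟨_, h1.neg⟩
    refine ⟨fun i x => -u i x, by simpa using InL.neg u1, fun Φ hΦ i x => ?_⟩
    exact neg_le.1 (u2.1 (InL.neg hΦ) i x)
  · rintro (_ | i)
    · exact InL.lip hΦ 0
    intro x y
    have a0 := InL.lip hΦ i x y
    have a1 := ((InL.lip hΦ (i + 1)).up (hK (i + 1)) h0) x y
    have a2 := ((InL.lip hΦ (i + 1)).neg.up (hK (i + 1)) h0).neg x y
    have a3 := InL.lip hΦ (i + 2) x y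
    have a4 := hv x y
    simp only [TT]
    push_cast at *
    split_ifs
    · rw [← max_add_add_right, ← min_add_add_right]
      exact max_le_max a2 (min_le_min (by linarith) a1)
    · linarith
  · rintro (_ | i) x hx
    · exact InL.far hΦ 0 x hx
    have a1 := far_le_up (hK (i + 1)) h0 (InL.lip hΦ (i + 1)) (InL.far hΦ (i + 1)) hx
    have a2 := far_le_up (hK (i + 1)) h0 (InL.lip hΦ (i + 1)).neg ((InL.neg hΦ).far (i + 1)) hx
    rw [mul_neg, neg_ip] at a2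
    simp only [TT, InL.far hΦ i x hx, InL.far hΦ (i + 2) x hx, hf x hx]
    simp only [nat_ip] at *
    push_cast at *
    split_ifs
    · rw [show (i * ip η x + (i + 2) * ip η x) / 2 = (i + 1) * ip η x by ring, min_eq_left a1,
        max_eq_right (by linarith)]
    · ring
  · rintro Φ hΦ Ψ hΨ hle (_ | i) x
    · exact hle 0 x
    have a1 := up_le (hK (i + 1)) h0 (InL.lip hΦ (i + 1)) (InL.lip hΨ (i + 1)) (x := x) (x' := x)
      (m := 0) fun y => by simpa using hle (i + 1) (x + y)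
    have a2 := up_le (hK (i + 1)) h0 (InL.lip hΨ (i + 1)).neg (InL.lip hΦ (i + 1)).neg (x := x)
      (x' := x) (m := 0) fun y => by simpa using hle (i + 1) (x + y)
    have a3 := hle i x
    have a4 := hle (i + 2) x
    simp only [TT]
    split_ifs
    · exact max_le_max (by linarith) (min_le_min (by linarith) (by linarith))
    · linarith

/-- The one-sided properties at a fixed scale. -/
structure Sc (K : Set ℂ) (h : ℝ) (φ t : ℂ → ℝ) : Prop where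
  np : ∀ x, ∀ b ∈ K, ∀ ε, 0 < ε → ∃ y, ‖y‖ = h ∧ φ x ≤ φ (x + y) - ip b y + ε
  cc : ∀ x, φ x < t x → ∀ ε, 0 < ε → ∃ b ∈ K, ∀ y, ‖y‖ = h → φ (x + y) - ip b y ≤ φ x + ε

theorem sc_of {t : ℂ → ℝ} (hK : K.Nonempty) (h0 : 0 < h) (hφ : Lp L φ)
    (h1 : ∀ x, φ x ≤ up K h φ x) (h2 : ∀ x, φ x < t x → up K h φ x ≤ φ x) : Sc K h φ t := by
  refine ⟨fun x b hb ε hε => ?_, fun x hx ε hε => ?_⟩
  · by_contra hc
    push Not at hc
    have : up K h φ x ≤ φ x - ε :=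
      csInf_le (upS_bdd h0 hφ x) ⟨b, hb, fun y hy => by linarith [hc y hy]⟩
    linarith [h1 x]
  · obtain ⟨c, ⟨b, hb, hc⟩, h3⟩ := exists_lt_of_csInf_lt (upS_ne (h := h) hK hφ x)
      (show up K h φ x < φ x + ε by linarith [h2 x hx])
    exact ⟨b, hb, fun y hy => (hc y hy).trans h3.le⟩

theorem sc_fix {t : ℂ → ℝ} (hK : K.Nonempty) (h0 : 0 < h) (hφ : Lp L φ)
    (e : ∀ x, max (-up K h (fun z => -φ z) x) (min (t x) (up K h φ x)) = φ x) :
    Sc K h φ t ∧ Sc K h (fun z => -φ z) fun z => -t z := by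
  refine ⟨sc_of hK h0 hφ (fun x => ?_) fun x hx => ?_,
    sc_of hK h0 hφ.neg (fun x => ?_) fun x hx => ?_⟩
  · exact (e x).ge.trans (max_le (dn_le_up hK h0 hφ x) (min_le_right _ _))
  · exact (min_le_iff.1 ((le_max_right _ _).trans (e x).le)).resolve_left (not_le.2 hx)
  · exact neg_le.1 ((le_max_left _ _).trans (e x).le)
  · refine le_neg.1 ((le_max_iff.1 (e x).ge).resolve_right fun h1 => ?_)
    linarith [h1.trans (min_le_left _ _)]

/-- Uniform limits of functions with the one-sided properties at small scales. -/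
def Side (L : ℝ) (K : Set ℂ) (φ t : ℂ → ℝ) : Prop :=
  ∀ ε, 0 < ε → ∃ (h : ℝ) (φ' t' : ℂ → ℝ), 0 < h ∧ h ≤ ε ∧ (∀ x, |φ' x - φ x| ≤ ε) ∧
    (∀ x, |t' x - t x| ≤ ε) ∧ Lp L φ' ∧ Sc K h φ' t'

theorem exists_level {K : ℕ → Set ℂ} (hK : ∀ i, (K i).Nonempty) (N : ℕ) {v : ℂ → ℝ}
    (hv : Lp L v) (hf : ∀ x, R ≤ ‖x‖ → v x = ip η x) :
    ∃ Φ, InL L R η Φ ∧ (∀ x, Φ (N + 1) x = Φ N x + v x) ∧ ∀ i < N,
      Side ((i + 1 : ℕ) * L) (K (i + 1)) (Φ (i + 1)) (fun x => (Φ i x + Φ (i + 2) x) / 2) ∧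
      Side ((i + 1 : ℕ) * L) (K (i + 1)) (fun x => -Φ (i + 1) x)
        fun x => -((Φ i x + Φ (i + 2) x) / 2) := by
  have hp : ∀ n : ℕ, (0 : ℝ) < 1 / (n + 1) := fun n => by positivity
  choose F f1 f2 using fun n : ℕ => exists_fix hK (hp n) N hv hf
  have ex : ∀ i x, ∃ a, Tendsto (fun n => F n i x) (hyperfilter ℕ) (𝓝 a) := fun i x => by
    obtain ⟨a, -, ha⟩ := (isCompact_closedBall (ip (i * η) R) (i * L * ‖x - R‖)).ultrafilter_le_nhds
      ((hyperfilter ℕ).map fun n => F n i x) (by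
        rw [Ultrafilter.coe_map, le_principal_iff, mem_map]
        exact Eventually.of_forall fun n => (f1 n).abs_le i x)
    exact ⟨a, ha⟩
  choose Φ hΦ using ex
  have g1 : InL L R η Φ := ⟨fun i x y => le_of_tendsto_of_tendsto' (hΦ i x)
    ((hΦ i y).add_const _) fun n => (f1 n).lip i x y, fun i x hx =>
      tendsto_nhds_unique (hΦ i x) (tendsto_const_nhds.congr fun n => ((f1 n).far i x hx).symm)⟩
  have un : ∀ i ε, 0 < ε → ∀ᶠ n in hyperfilter ℕ, ∀ x, |F n i x - Φ i x| ≤ ε := by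
    intro i ε hε
    have h1 : ∀ᶠ z : ℕ × ℂ in (hyperfilter ℕ : Filter ℕ) ×ˢ 𝓝ˢ (closedBall 0 R),
        |F z.1 i z.2 - Φ i z.2| ≤ ε :=
      (isCompact_closedBall 0 R).mem_prod_nhdsSet_of_forall fun y _ => by
        have a1 := (tendsto_iff_dist_tendsto_zero.1 (hΦ i y)).eventually (gt_mem_nhds (half_pos hε))
        have a2 := ((by fun_prop : Continuous fun z : ℂ => 2 * (i * L * ‖z - y‖)).tendsto' y 0
          (by simp)).eventually (gt_mem_nhds (half_pos hε))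
        filter_upwards [a1.prod_mk a2] with z hz
        have b1 := abs_le.1 (((f1 z.1).lip i).abs_le y (z.2 - y))
        have b2 := abs_le.1 ((g1.lip i).abs_le y (z.2 - y))
        have b3 := abs_lt.1 hz.1
        rw [add_sub_cancel] at b1 b2
        exact abs_le.2 ⟨by linarith [b1.1, b2.2, b3.1, hz.2], by linarith [b1.2, b2.1, b3.2, hz.2]⟩
    filter_upwards [h1.curry] with n hn x
    rcases le_total ‖x‖ R with hx | hx
    · exact hn.self_of_nhdsSet x (mem_closedBall_zero_iff.2 hx)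
    · rw [(f1 n).far i x hx, g1.far i x hx, sub_self, abs_zero]
      exact hε.le
  refine ⟨Φ, g1, fun x => tendsto_nhds_unique (hΦ _ x) (((hΦ N x).add_const (v x)).congr
    fun n => ?_), fun i hi => ?_⟩
  · have := congrFun (congrFun (f2 n) (N + 1)) x
    simpa [TT] using this
  have key : ∀ ε, 0 < ε → ∃ n : ℕ, (1 / (n + 1) : ℝ) ≤ ε ∧
      (∀ x, |F n (i + 1) x - Φ (i + 1) x| ≤ ε) ∧
      ∀ x, |(F n i x + F n (i + 2) x) / 2 - (Φ i x + Φ (i + 2) x) / 2| ≤ ε := fun ε hε => by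
    have a1 : ∀ᶠ n : ℕ in hyperfilter ℕ, (1 / (n + 1) : ℝ) < ε :=
      Nat.hyperfilter_le_atTop (tendsto_one_div_add_atTop_nhds_zero_nat.eventually (gt_mem_nhds hε))
    obtain ⟨n, n1, n2, n3, n4⟩ :=
      (a1.and ((un (i + 1) ε hε).and ((un i ε hε).and (un (i + 2) ε hε)))).exists
    refine ⟨n, n1.le, n2, fun x => ?_⟩
    have b1 := abs_le.1 (n3 x)
    have b2 := abs_le.1 (n4 x)
    exact abs_le.2 ⟨by linarith [b1.1, b2.1], by linarith [b1.2, b2.2]⟩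
  have sc := fun n => sc_fix (t := fun x => (F n i x + F n (i + 2) x) / 2) (hK (i + 1)) (hp n)
    ((f1 n).lip (i + 1)) fun x => by
      have := congrFun (congrFun (f2 n) (i + 1)) x
      simpa only [TT, if_pos hi] using this
  constructor <;> intro ε hε <;> obtain ⟨n, n1, n2, n3⟩ := key ε hε
  · exact ⟨_, _, _, hp n, n1, n2, n3, (f1 n).lip (i + 1), (sc n).1⟩
  · exact ⟨_, _, _, hp n, n1, fun x => by rw [neg_sub_neg, abs_sub_comm]; exact n2 x,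
      fun x => by rw [neg_sub_neg, abs_sub_comm]; exact n3 x, ((f1 n).lip (i + 1)).neg, (sc n).2⟩

end Pool.Agent.MP_515557_an.H62
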