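import Pool.Agent.MP_515557_an.H62.Point
import Pool.Agent.MP_515557_an.H63.Schwarz

/-! Sweeping a locally convex function of the chart by tangent lines of the parabola. -/

set_option autoImplicit false

open Finset

namespace Pool.Agent.MP_515557_an.H62

/-- The affine function that vanishes on the tangent line of the parabola at `r`. -/
def AF (r s D : ℝ) : ℝ := 2 * r * s - r ^ 2 - D

theorem AF_pt (r x y : ℝ) : AF r ((x + y) / 2) (x * y) = AA r x y := by unfold AF AA; ring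

/-- Convexity on each half plane below a tangent line. -/
def LC (φ : ℝ → ℝ → ℝ) : Prop :=
  ∀ r s D s' D' t : ℝ, 0 ≤ t → t ≤ 1 → 0 ≤ AF r s D → 0 ≤ AF r s' D' →
    φ ((1 - t) * s + t * s') ((1 - t) * D + t * D') ≤ (1 - t) * φ s D + t * φ s' D'

/-- Superlinear growth along one end of each tangent line. -/
def Co (φ : ℝ → ℝ → ℝ) : Prop :=
  ∀ r M c : ℝ, ∃ Y, ∀ y ≤ Y, c - M * y ≤ φ ((r + y) / 2) (r * y)

/-- A zero at the point with singular values `x`, `y` that is a minimum on the visible set. -/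
structure Zero (φ : ℝ → ℝ → ℝ) (x y : ℝ) : Prop where
  lt : y < x
  eq : φ ((x + y) / 2) (x * y) = 0
  ge : ∀ r s D, y ≤ r → r ≤ x → 0 ≤ AF r s D → 0 ≤ φ s D

theorem LC.aff {φ φ' : ℝ → ℝ → ℝ} (h : LC φ) (c0 c1 c2 : ℝ)
    (e : ∀ s D, φ' s D = φ s D - (c0 + c1 * s + c2 * D)) : LC φ' := by
  intro r s D s' D' t t0 t1 a b
  have := h r s D s' D' t t0 t1 a b
  simp only [e]
  linarith

theorem Co.aff {φ φ' : ℝ → ℝ → ℝ} (h : Co φ) (c0 c1 c2 : ℝ)
    (e : ∀ s D, φ' s D = φ s D - (c0 + c1 * s + c2 * D)) : Co φ' := by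
  intro r M c
  obtain ⟨Y, hY⟩ := h r (M - c1 / 2 - c2 * r) (c + c0 + c1 * r / 2)
  refine ⟨Y, fun y hy => ?_⟩
  have := hY y hy
  rw [e]
  linarith

theorem LC.subA {φ : ℝ → ℝ → ℝ} (h : LC φ) (κ r : ℝ) : LC fun s D => φ s D - κ * AF r s D :=
  h.aff (-κ * r ^ 2) (2 * κ * r) (-κ) fun s D => by unfold AF; ring

theorem Co.subA {φ : ℝ → ℝ → ℝ} (h : Co φ) (κ r : ℝ) : Co fun s D => φ s D - κ * AF r s D :=
  h.aff (-κ * r ^ 2) (2 * κ * r) (-κ) fun s D => by unfold AF; ring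

theorem LC.line {φ : ℝ → ℝ → ℝ} (h : LC φ) (r : ℝ) :
    ConvexOn ℝ Set.univ fun y => φ ((r + y) / 2) (r * y) := by
  refine ⟨convex_univ, fun y _ z _ a b ha hb hab => ?_⟩
  have := h r ((r + y) / 2) (r * y) ((r + z) / 2) (r * z) b hb (by linarith)
    (by rw [AF_pt]; simp [AA]) (by rw [AF_pt]; simp [AA])
  have e : a = 1 - b := by linarith
  subst e
  simp only [smul_eq_mul]
  rw [show (r + ((1 - b) * y + b * z)) / 2 = (1 - b) * ((r + y) / 2) + b * ((r + z) / 2) by ring,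
    show r * ((1 - b) * y + b * z) = (1 - b) * (r * y) + b * (r * z) by ring]
  exact this

theorem LC.extend {φ : ℝ → ℝ → ℝ} (h : LC φ) {x y : ℝ} (hxy : y < x)
    (h0 : φ ((x + y) / 2) (x * y) = 0) (hl : ∀ z, 0 ≤ φ ((x + z) / 2) (x * z)) :
    ∃ κ, Zero (fun s D => φ s D - κ * AF x s D) x y := by
  set σ := (x + y) / 2 with hσ
  have τ0 : 0 < AF σ σ (x * y) := by
    have : AF σ σ (x * y) = ((x - y) / 2) ^ 2 := by unfold AF; rw [hσ]; ring
    rw [this]
    exact pow_pos (by linarith) 2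
  have p0 : AF x σ (x * y) = 0 := by rw [hσ, AF_pt]; simp [AA]
  have hl' : ∀ s D, AF x s D = 0 → 0 ≤ φ s D := fun s D e => by
    have := hl (2 * s - x)
    rwa [show (x + (2 * s - x)) / 2 = s by ring,
      show x * (2 * s - x) = D by unfold AF at e; linarith] at this
  have key : ∀ s D s' D', 0 ≤ AF σ s D → 0 ≤ AF σ s' D' → AF x s D < 0 → 0 < AF x s' D' →
      φ s D / AF x s D ≤ φ s' D' / AF x s' D' := by
    intro s D s' D' a a' b b'
    have q : 0 < AF x s' D' - AF x s D := by linarith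
    set t := -AF x s D / (AF x s' D' - AF x s D) with ht
    have e : t * (AF x s' D' - AF x s D) = -AF x s D := div_mul_cancel₀ _ q.ne'
    have t0 : 0 ≤ t := div_nonneg (by linarith) q.le
    have t1 : t ≤ 1 := by rw [ht, div_le_one q]; linarith
    have h1 := h σ s D s' D' t t0 t1 a a'
    have h2 := hl' ((1 - t) * s + t * s') ((1 - t) * D + t * D') (by
      unfold AF at e ⊢; linarith)
    have h3 := mul_nonneg (h2.trans h1) q.le
    rw [← neg_div_neg_eq, div_le_div_iff₀ (by linarith) b']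
    have e2 : ((1 - t) * φ s D + t * φ s' D') * (AF x s' D' - AF x s D)
        = φ s D * (AF x s' D' - AF x s D)
          + (φ s' D' - φ s D) * (t * (AF x s' D' - AF x s D)) := by ring
    rw [e2, e] at h3
    linarith
  set S := {c | ∃ s D, 0 ≤ AF σ s D ∧ AF x s D < 0 ∧ c = φ s D / AF x s D} with hS
  have Sne : S.Nonempty := ⟨_, σ, x * y + AF σ σ (x * y), by unfold AF; linarith,
    by unfold AF at τ0 p0 ⊢; linarith, rfl⟩
  have Sb : BddAbove S := ⟨φ σ (x * y - 1) / AF x σ (x * y - 1), by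
    rintro _ ⟨s, D, a, b, rfl⟩
    exact key _ _ _ _ a (by unfold AF at τ0 ⊢; linarith) b (by unfold AF at p0 ⊢; linarith)⟩
  have loc : ∀ s D, 0 ≤ AF σ s D → 0 ≤ φ s D - sSup S * AF x s D := by
    intro s D a
    rcases lt_trichotomy (AF x s D) 0 with b | b | b
    · have := le_csSup Sb ⟨s, D, a, b, rfl⟩
      rw [div_le_iff_of_neg b] at this
      linarith
    · rw [b, mul_zero, sub_zero]; exact hl' s D b
    · have : sSup S ≤ φ s D / AF x s D := csSup_le Sne (by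
        rintro _ ⟨s', D', a', b', rfl⟩
        exact key _ _ _ _ a' a b' b)
      rw [le_div_iff₀ b] at this
      linarith
  refine ⟨sSup S, hxy, by simp only [← hσ, h0, p0, mul_zero, sub_zero], fun r s D r1 r2 a => ?_⟩
  have q : 0 < AF σ σ (x * y) + |AF σ s D| := by positivity
  set t := AF σ σ (x * y) / (AF σ σ (x * y) + |AF σ s D|) with ht
  have e : t * (AF σ σ (x * y) + |AF σ s D|) = AF σ σ (x * y) := div_mul_cancel₀ _ q.ne'
  have t0 : 0 < t := div_pos τ0 q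
  have t1 : t ≤ 1 := by rw [ht, div_le_one q]; linarith [abs_nonneg (AF σ s D)]
  have h1 := h.subA (sSup S) x r σ (x * y) s D t t0.le t1 (by
    rw [hσ, AF_pt]; exact mul_nonneg (by linarith) (by linarith)) a
  have h2 := loc ((1 - t) * σ + t * s) ((1 - t) * (x * y) + t * D) (by
    have : AF σ ((1 - t) * σ + t * s) ((1 - t) * (x * y) + t * D)
        = (1 - t) * AF σ σ (x * y) + t * AF σ s D := by unfold AF; ring
    rw [this]
    nlinarith [mul_nonneg t0.le (show 0 ≤ |AF σ s D| + AF σ s D by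
      linarith [neg_abs_le (AF σ s D)])])
  simp only [h0, p0, mul_zero, sub_zero, zero_add] at h1
  exact nonneg_of_mul_nonneg_right (h2.trans h1) t0

theorem one_dim {n : ℝ → ℝ} (hc : ConvexOn ℝ Set.univ n) {a : ℝ} (h0 : ∀ y ≤ a, 0 ≤ n y)
    (hco : ∀ M c : ℝ, ∃ Y, ∀ y ≤ Y, c - M * y ≤ n y) :
    ∃ κ, 0 ≤ κ ∧ (∃ b ≤ a, n b = κ * (a - b)) ∧ ∀ y, κ * (a - y) ≤ n y := by
  set S := {c | ∃ y < a, c = n y / (a - y)} with hS
  have Sne : S.Nonempty := ⟨_, a - 1, by linarith, rfl⟩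
  have S0 : ∀ c ∈ S, 0 ≤ c := by
    rintro _ ⟨y, hy, rfl⟩
    exact div_nonneg (h0 y hy.le) (by linarith)
  have Sb : BddBelow S := ⟨0, S0⟩
  set κ := sInf S with hκ
  have h1 : ∀ y ≤ a, κ * (a - y) ≤ n y := fun y hy => by
    rcases hy.lt_or_eq with hy | rfl
    · exact (le_div_iff₀ (by linarith)).1 (csInf_le Sb ⟨y, hy, rfl⟩)
    · simpa using h0 y le_rfl
  refine ⟨κ, le_csInf Sne S0, ?_, fun y => ?_⟩
  · obtain ⟨Y, hY⟩ := hco (κ + 1) ((κ + 1) * a)
    have hn : Continuous n := continuousOn_univ.1 (hc.continuousOn isOpen_univ)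
    obtain ⟨b, hb, hm⟩ := (isCompact_Icc (a := min Y a) (b := a)).exists_isMinOn
      ⟨a, min_le_right _ _, le_rfl⟩ (f := fun y => n y - κ * (a - y)) (by fun_prop)
    refine ⟨b, hb.2, le_antisymm (not_lt.1 fun hlt => ?_) (h1 b hb.2)⟩
    have q : 0 < a - min Y a + 1 := by linarith [min_le_right Y a]
    set e := min 1 ((n b - κ * (a - b)) / (a - min Y a + 1)) with he
    have e0 : 0 < e := lt_min one_pos (div_pos (by linarith) q)
    have e1 : e ≤ 1 := min_le_left _ _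
    have e2 : e * (a - min Y a + 1) ≤ n b - κ * (a - b) := (le_div_iff₀ q).1 (min_le_right _ _)
    have : κ + e ≤ κ := le_csInf Sne (by
      rintro _ ⟨y, hy, rfl⟩
      rw [le_div_iff₀ (by linarith)]
      rcases le_total y (min Y a) with h2 | h2
      · have := hY y (h2.trans (min_le_left _ _))
        nlinarith
      · have : n b - κ * (a - b) ≤ n y - κ * (a - y) := hm ⟨h2, hy.le⟩
        nlinarith)
    linarith
  rcases le_or_gt y a with hy | hy
  · exact h1 y hy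
  have : -n y / (y - a) ≤ κ := le_csInf Sne (by
    rintro _ ⟨z, hz, rfl⟩
    have q : 0 < y - z := by linarith
    have h2 := hc.2 (Set.mem_univ z) (Set.mem_univ y)
      (show 0 ≤ (y - a) / (y - z) from div_nonneg (by linarith) q.le)
      (show 0 ≤ (a - z) / (y - z) from div_nonneg (by linarith) q.le) (by field_simp; ring)
    have e : ((y - a) / (y - z)) • z + ((a - z) / (y - z)) • y = a := by
      simp only [smul_eq_mul]; field_simp; ring
    rw [e] at h2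
    have h3 := mul_nonneg ((h0 a le_rfl).trans h2) q.le
    have e2 : (((y - a) / (y - z)) • n z + ((a - z) / (y - z)) • n y) * (y - z)
        = (y - a) * n z + (a - z) * n y := by simp only [smul_eq_mul]; field_simp
    rw [e2] at h3
    rw [div_le_div_iff₀ (by linarith) (by linarith)]
    linarith)
  rw [div_le_iff₀ (by linarith)] at this
  linarith

theorem step {φ : ℝ → ℝ → ℝ} (h : LC φ) (hc : Co φ) {x y x' : ℝ} (hz : Zero φ x y) (hx : x < x') :
    ∃ κ κ' y', 0 ≤ κ ∧ 0 ≤ κ' ∧ y' ≤ x ∧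
      Zero (fun s D => φ s D - κ * AF x s D - κ' * AF x' s D) x' y' := by
  obtain ⟨k, k0, ⟨b, b1, b2⟩, k1⟩ := one_dim (h.line x') (a := x) (fun z hz' =>
    hz.ge x _ _ hz.lt.le le_rfl (by rw [AF_pt]; exact mul_nonneg (by linarith) (by linarith)))
    (hc x')
  have q : 0 < x' - x := by linarith
  have e : ∀ z, k / (x' - x) * AF x ((x' + z) / 2) (x' * z) = k * (x - z) := fun z => by
    rw [AF_pt, AA]; field_simp
  obtain ⟨κ', h1⟩ := (h.subA (k / (x' - x)) x).extend (x := x') (y := b) (by linarith)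
    (by simp only [e]; linarith) fun z => by simp only [e]; linarith [k1 z]
  refine ⟨k / (x' - x), κ', b, div_nonneg k0 q.le, ?_, b1, h1⟩
  have h2 := h1.ge x ((x + y) / 2) (x * y) b1 hx.le (by rw [AF_pt]; simp [AA])
  simp only [hz.eq, AF_pt, AA, sub_self, mul_zero, zero_sub] at h2
  have h3 : 0 < (x' - y) * (x' - x) := mul_pos (by linarith [hz.lt]) q
  by_contra h4
  nlinarith [mul_pos (neg_pos.2 (not_le.1 h4)) h3]

theorem pad {ρ : ℕ → ℝ} (hρ : Monotone ρ) {a r : ℝ} (ha : ∀ i, a ≤ ρ i) (hr : ∀ i, ρ i ≤ r)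
    (N : ℕ) : ∃ ρ' : ℕ → ℝ, Monotone ρ' ∧ (∀ i, a ≤ ρ' i) ∧ (∀ i, ρ' i ≤ r) ∧
      ∀ (m : ℕ) (G : ℝ → ℝ), ∑ i ∈ range (N + m), G (ρ' i) = ∑ i ∈ range N, G (ρ i) + m * G r := by
  refine ⟨fun i => if i < N then ρ i else r, fun i j hij => ?_, fun i => ?_, fun i => ?_,
    fun m G => ?_⟩
  · beta_reduce
    split_ifs with h1 h2 h2
    exacts [hρ hij, hr i, by omega, le_rfl]
  · beta_reduce
    split_ifs
    exacts [ha i, (ha 0).trans (hr 0)]
  · beta_reduce
    split_ifs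
    exacts [hr i, le_rfl]
  · rw [sum_range_add]
    congr 1
    · exact sum_congr rfl fun i hi => by simp only [if_pos (mem_range.1 hi)]
    · simp

theorem atom {ρ : ℕ → ℝ} (hρ : Monotone ρ) {a r h κ : ℝ} (ha : ∀ i, a ≤ ρ i) (hr : ∀ i, ρ i ≤ r)
    (h0 : 0 < h) (hκ : 0 ≤ κ) (N : ℕ) :
    ∃ (N' : ℕ) (ρ' : ℕ → ℝ), Monotone ρ' ∧ (∀ i, a ≤ ρ' i) ∧ (∀ i, ρ' i ≤ r) ∧ ∀ G : ℝ → ℝ,
      h * ∑ i ∈ range N', G (ρ' i) ≤ h * ∑ i ∈ range N, G (ρ i) + κ * G r + h * |G r| := by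
  obtain ⟨ρ', a1, a2, a3, a4⟩ := pad hρ ha hr N
  refine ⟨N + ⌊κ / h⌋₊, ρ', a1, a2, a3, fun G => ?_⟩
  have b1 := (le_div_iff₀ h0).1 (Nat.floor_le (div_nonneg hκ h0.le))
  have b2 := (div_lt_iff₀ h0).1 (Nat.lt_floor_add_one (κ / h))
  rw [a4]
  rcases le_total 0 (G r) with g | g
  · rw [abs_of_nonneg g]
    nlinarith [mul_nonneg h0.le g]
  · rw [abs_of_nonpos g]
    nlinarith

theorem abs_AA_le {R r x y : ℝ} (r1 : -R ≤ r) (r2 : r ≤ R) (y1 : -R ≤ y) (yx : y ≤ x)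
    (x1 : x ≤ R) : |AA r x y| ≤ 4 * R ^ 2 := by
  rw [AA, abs_mul, show 4 * R ^ 2 = 2 * R * (2 * R) by ring]
  exact mul_le_mul (abs_le.2 ⟨by linarith, by linarith⟩) (abs_le.2 ⟨by linarith, by linarith⟩)
    (abs_nonneg _) (by linarith)

theorem KO_eq_zero {r x : ℝ} (h : x ≤ r) (y : ℝ) : KO r x y = 0 := by
  rw [KO, max_eq_right (by linarith), zero_mul]

theorem KO_eq_AA {r x : ℝ} (h : r ≤ x) (y : ℝ) : KO r x y = AA r x y := by
  rw [KO, max_eq_left (by linarith), AA, mul_comm]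

theorem stages {φ : ℝ → ℝ → ℝ} (h : LC φ) (hc : Co φ) {x0 y0 R δ η : ℝ} (hz : Zero φ x0 y0)
    (hR : -R ≤ x0) (hδ : 0 < δ) (hη : 0 < η) (n : ℕ) (hn : x0 + n * δ ≤ R) :
    ∃ (φ' : ℝ → ℝ → ℝ) (y' : ℝ) (N : ℕ) (ρ : ℕ → ℝ), LC φ' ∧ Co φ' ∧ Zero φ' (x0 + n * δ) y' ∧
      φ' ((R + 1 + (x0 - 1)) / 2) ((R + 1) * (x0 - 1))
        ≤ φ ((R + 1 + (x0 - 1)) / 2) ((R + 1) * (x0 - 1)) ∧
      Monotone ρ ∧ (∀ i, x0 ≤ ρ i) ∧ (∀ i, ρ i ≤ x0 + n * δ) ∧
      (∀ x y, -R ≤ y → y ≤ x → x ≤ R → η * ∑ i ∈ range N, AA (ρ i) x y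
        ≤ φ ((x + y) / 2) (x * y) - φ' ((x + y) / 2) (x * y) + n * (8 * η * R ^ 2)) ∧
      ∀ x y, -R ≤ y → y ≤ x → y0 ≤ x → x ≤ x0 + n * δ → η * ∑ i ∈ range N, KO (ρ i) x y
        ≤ φ ((x + y) / 2) (x * y) + n * (8 * η * R ^ 2)
          + φ ((R + 1 + (x0 - 1)) / 2) ((R + 1) * (x0 - 1)) * (2 * R * δ) := by
  set Λ := φ ((R + 1 + (x0 - 1)) / 2) ((R + 1) * (x0 - 1)) with hΛ
  have hq : ∀ r, x0 ≤ r → r ≤ R → 1 ≤ AF r ((R + 1 + (x0 - 1)) / 2) ((R + 1) * (x0 - 1)) :=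
    fun r a b => by
      rw [AF_pt]
      exact one_le_mul_of_one_le_of_one_le (by linarith) (by linarith)
  induction n with
  | zero =>
    simp only [Nat.cast_zero, zero_mul, add_zero] at hn ⊢
    refine ⟨φ, y0, 0, fun _ => x0, h, hc, hz, le_rfl, monotone_const, fun _ => le_rfl,
      fun _ => le_rfl, fun x y _ _ _ => by simp, fun x y _ b c d => ?_⟩
    have a1 := hz.ge x ((x + y) / 2) (x * y) c d (by rw [AF_pt]; simp [AA])
    have a2 : 0 ≤ Λ := hz.ge x0 _ _ hz.lt.le le_rfl (zero_le_one.trans (hq x0 le_rfl hn))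
    have a3 : 0 ≤ Λ * (2 * R * δ) := mul_nonneg a2 (mul_nonneg (by linarith) hδ.le)
    simp only [range_zero, sum_empty, mul_zero]
    linarith
  | succ n ih =>
    push_cast at hn ⊢
    have n0 : 0 ≤ n * δ := by positivity
    obtain ⟨φ', y', N, ρ, a1, a2, a3, a4, a5, a6, a7, a8, a9⟩ := ih (by linarith)
    set u := x0 + n * δ with hu
    set u' := x0 + (n + 1) * δ with hu'
    have uu : u' = u + δ := by rw [hu, hu']; ring
    obtain ⟨κ, κ', y2, k0, k1, k2, k3⟩ := step a1 a2 a3 (x' := u') (by linarith)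
    obtain ⟨N1, ρ1, b1, b2, b3, b4⟩ := atom a5 a6 a7 hη k0 N
    obtain ⟨N2, ρ2, c1, c2, c3, c4⟩ := atom b1 b2 (r := u') (fun i => by linarith [b3 i]) hη k1 N1
    have q1 := hq u (by linarith) (by linarith)
    have q2 := hq u' (by linarith) hn
    have q3 := k3.ge u' _ _ k3.lt.le le_rfl (zero_le_one.trans q2)
    have q4 := mul_nonneg k0 (zero_le_one.trans q1)
    have q5 := mul_le_mul_of_nonneg_left q2 k1
    have q6 : 0 ≤ 4 * η * R ^ 2 := by positivity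
    beta_reduce at q3
    refine ⟨_, y2, N2, ρ2, (a1.subA κ u).subA κ' u', (a2.subA κ u).subA κ' u', k3,
      by linarith, c1, c2, c3, fun x y y1 yx x1 => ?_, fun x y y1 yx x1 x2 => ?_⟩
    · have d1 := b4 fun r => AA r x y
      have d2 := c4 fun r => AA r x y
      have d3 := mul_le_mul_of_nonneg_left
        (abs_AA_le (r := u) (by linarith) (by linarith) y1 yx x1) hη.le
      have d4 := mul_le_mul_of_nonneg_left (abs_AA_le (r := u') (by linarith) hn y1 yx x1) hη.le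
      have d5 := a8 x y y1 yx x1
      simp only [AF_pt]
      beta_reduce at d1 d2
      linarith
    have d2 := c4 fun r => KO r x y
    simp only [KO_eq_zero x2, mul_zero, abs_zero, add_zero] at d2
    rcases le_total x u with x3 | x3
    · have d1 := b4 fun r => KO r x y
      simp only [KO_eq_zero x3, mul_zero, abs_zero, add_zero] at d1
      linarith [a9 x y y1 yx x1 x3]
    rw [sum_congr rfl fun i _ => KO_eq_AA ((b3 i).trans x3) y] at d2
    have d1 := b4 fun r => AA r x y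
    have d3 := mul_le_mul_of_nonneg_left
      (abs_AA_le (r := u) (by linarith) (by linarith) y1 yx (x2.trans hn)) hη.le
    have d5 := a8 x y y1 yx (x2.trans hn)
    have d6 := k3.ge x ((x + y) / 2) (x * y) (k2.trans x3) x2 (by rw [AF_pt]; simp [AA])
    have d7 : -(2 * R * δ) ≤ AA u' x y := by
      have := mul_le_mul (show u' - y ≤ 2 * R by linarith) (show u' - x ≤ δ by linarith)
        (by linarith) (by linarith)
      unfold AA
      linarith
    have d8 := mul_le_mul_of_nonneg_left d7 k1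
    have d9 := mul_le_mul_of_nonneg_right (show κ' ≤ Λ by linarith)
      (show 0 ≤ 2 * R * δ from mul_nonneg (by linarith) hδ.le)
    simp only [AF_pt] at d6
    beta_reduce at d1
    linarith

/-- The outer sweep. -/
theorem sweep {φ : ℝ → ℝ → ℝ} (h : LC φ) (hc : Co φ) {x0 y0 R ε : ℝ} (hz : Zero φ x0 y0)
    (hR : -R ≤ x0) (hR' : x0 < R) (hε : 0 < ε) :
    ∃ η0, 0 < η0 ∧ ∀ η, 0 < η → η ≤ η0 → ∃ N0 : ℕ, ∀ N, N0 ≤ N → ∃ ρ : ℕ → ℝ, Monotone ρ ∧
      (∀ i, x0 ≤ ρ i) ∧ ∀ x y, -R ≤ y → y ≤ x → y0 ≤ x → x ≤ R →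
        η * ∑ i ∈ range N, KO (ρ i) x y ≤ φ ((x + y) / 2) (x * y) + ε := by
  set Λ := φ ((R + 1 + (x0 - 1)) / 2) ((R + 1) * (x0 - 1)) with hΛ
  obtain ⟨n, hn⟩ := exists_nat_gt (max 0 (Λ * (2 * R * (R - x0)) / (ε / 2)))
  have n0 : (0 : ℝ) < n := (le_max_left _ _).trans_lt hn
  have n1 := (div_lt_iff₀ (half_pos hε)).1 ((le_max_right _ _).trans_lt hn)
  have R0 : 0 < R := by linarith
  refine ⟨ε / 2 / (n * (8 * R ^ 2)), by positivity, fun η η0 η1 => ?_⟩
  have e : x0 + n * ((R - x0) / n) = R := by field_simp; ring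
  obtain ⟨φ', y', N, ρ, -, -, -, -, a5, a6, a7, -, a9⟩ := stages h hc hz hR
    (δ := (R - x0) / n) (div_pos (by linarith) n0) η0 n e.le
  rw [e] at a7 a9
  obtain ⟨ρ', b1, b2, -, b4⟩ := pad a5 a6 a7 N
  refine ⟨N, fun N' hN => ⟨ρ', b1, b2, fun x y y1 yx x1 x2 => ?_⟩⟩
  obtain ⟨m, rfl⟩ := Nat.exists_eq_add_of_le hN
  have c1 := b4 m fun r => KO r x y
  simp only [KO_eq_zero x2, mul_zero, add_zero] at c1
  have c2 := a9 x y y1 yx x1 x2
  rw [le_div_iff₀ (by positivity)] at η1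
  have c3 : Λ * (2 * R * ((R - x0) / n)) ≤ ε / 2 := by
    rw [show Λ * (2 * R * ((R - x0) / n)) = Λ * (2 * R * (R - x0)) / n by ring, div_le_iff₀ n0]
    linarith
  rw [c1]
  linarith

end Pool.Agent.MP_515557_an.H62
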