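import Pool.Agent.MP_515557_an.H62.Chain
import Pool.Agent.MP_515557_an.H62.Sweep
import Pool.Agent.MP_515557_an.H63.Main

/-! Locally convex functions of the conformal modulus and the determinant are quasiconvex. -/

set_option autoImplicit false

open MeasureTheory Set Metric Filter Topology

namespace Pool.Agent.MP_515557_an.H62

open H11.Mono

theorem sep_cont {F : ℝ → ℝ → ℝ} (h : ∀ x, ConvexOn ℝ univ (F x)) (hs : ∀ x y, F x y = F y x) :
    Continuous fun p : ℝ × ℝ => F p.1 p.2 := by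
  have mid : ∀ x y, 2 * F x 0 ≤ F x y + F x (-y) := fun x y => by
    have := (h x).2 (mem_univ y) (mem_univ (-y)) (by norm_num : (0 : ℝ) ≤ 1 / 2)
      (by norm_num : (0 : ℝ) ≤ 1 / 2) (by norm_num)
    simp only [smul_eq_mul, mul_neg, add_neg_cancel] at this
    linarith
  refine continuous_iff_continuousAt.2 fun p => ?_
  set r := |p.1| + |p.2| + 2 with hr
  set C := max (max (F r (-r)) (F r r)) (max (F (-r) (-r)) (F (-r) r)) with hC
  have up : ∀ x y, |x| ≤ r → |y| ≤ r → F x y ≤ C := fun x y hx hy => by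
    have a1 := (h y).le_max_of_mem_Icc (mem_univ (-r)) (mem_univ r) (abs_le.1 hx)
    have a2 := (h r).le_max_of_mem_Icc (mem_univ (-r)) (mem_univ r) (abs_le.1 hy)
    have a3 := (h (-r)).le_max_of_mem_Icc (mem_univ (-r)) (mem_univ r) (abs_le.1 hy)
    rw [hs y, hs y, hs y] at a1
    exact a1.trans (max_le (a3.trans (le_max_right _ _)) (a2.trans (le_max_left _ _)))
  have r0 : |(0 : ℝ)| ≤ r := by rw [abs_zero]; positivity
  have bd : ∀ x y, |x| ≤ r → |y| ≤ r → |F x y| ≤ 4 * |F 0 0| + 3 * |C| := fun x y hx hy => by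
    have a1 := mid x y
    have a2 := mid 0 x
    have a3 := up x (-y) hx (by rwa [abs_neg])
    have a4 := up 0 (-x) r0 (by rwa [abs_neg])
    rw [hs 0 x] at a2
    exact abs_le.2 ⟨by linarith [neg_abs_le (F 0 0), le_abs_self C],
      by linarith [up x y hx hy, le_abs_self C, abs_nonneg C, abs_nonneg (F 0 0)]⟩
  have := continuousOn_prod_of_continuousOn_lipschitzOnWith' (fun p : ℝ × ℝ => F p.1 p.2)
    (s := ball 0 r) (t := ball 0 (r - 1)) _
    (fun a ha => ((h a).subset (subset_univ _) (convex_ball 0 r)).lipschitzOnWith_of_abs_le one_pos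
      fun y hy => bd a y (mem_ball_zero_iff.1 ha).le (by simpa using hy.le))
    fun b _ => by
      simp only [fun x => hs x b]
      exact ((h b).continuousOn isOpen_univ).mono (subset_univ _)
  refine this.continuousAt (prod_mem_nhds (isOpen_ball.mem_nhds ?_) (isOpen_ball.mem_nhds ?_))
  · rw [mem_ball_zero_iff, Real.norm_eq_abs]; linarith [abs_nonneg p.2]
  · rw [mem_ball_zero_iff, Real.norm_eq_abs]; linarith [abs_nonneg p.1]

theorem LC.cont {φ : ℝ → ℝ → ℝ} (h : LC φ) :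
    Continuous fun A => φ ‖cz A‖ (‖cz A‖ ^ 2 - ‖cw A‖ ^ 2) := by
  have c1 := continuous_cz.norm
  have c2 := continuous_cw.norm
  refine ((sep_cont (F := fun x y => φ ((x + y) / 2) (x * y)) h.line fun x y => by
    rw [add_comm, mul_comm]).comp ((c1.add c2).prodMk (c1.sub c2))).congr fun A => ?_
  simp only [Function.comp_apply, Pi.add_apply, Pi.sub_apply]
  congr 1 <;> ring

theorem LC.init {φ : ℝ → ℝ → ℝ} (h : LC φ) {x y : ℝ} (hxy : y < x) :
    ∃ c0 c1 c2, Zero (fun s D => φ s D - (c0 + c1 * s + c2 * D)) x y := by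
  obtain ⟨σ, hσ⟩ := H63.exists_sub (h.line x) y
  obtain ⟨κ, hκ⟩ := (h.aff (φ ((x + y) / 2) (x * y) - σ * (x + y)) (2 * σ) 0
    fun _ _ => rfl).extend hxy (by ring) fun z => by linarith [hσ z]
  refine ⟨φ ((x + y) / 2) (x * y) - σ * (x + y) - κ * x ^ 2, 2 * σ + 2 * κ * x, -κ, hxy, ?_,
    fun r s D a b c => ?_⟩
  · ring
  · have := hκ.ge r s D a b c
    unfold AF at this
    linarith

theorem Zero.refl {φ : ℝ → ℝ → ℝ} {x y : ℝ} (h : Zero φ x y) :
    Zero (fun s D => φ (-s) D) (-y) (-x) := by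
  refine ⟨neg_lt_neg h.lt, ?_, fun r s D a b c => h.ge (-r) (-s) D (by linarith) (by linarith) ?_⟩
  · rw [show -((-y + -x) / 2) = (x + y) / 2 by ring, show -y * -x = x * y by ring]
    exact h.eq
  · unfold AF at c ⊢
    linarith

theorem LC.pen {φ : ℝ → ℝ → ℝ} (h : LC φ) (B : ℝ) :
    LC (fun s D => φ s D + max (|s| - B) 0 ^ 2) ∧ Co fun s D => φ s D + max (|s| - B) 0 ^ 2 := by
  refine ⟨fun r s D s' D' t t0 t1 a b => ?_, fun r M c => ?_⟩
  · have h1 := h r s D s' D' t t0 t1 a b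
    have t2 : 0 ≤ 1 - t := by linarith
    have h2 : |(1 - t) * s + t * s'| ≤ (1 - t) * |s| + t * |s'| := by
      refine (abs_add_le _ _).trans ?_
      rw [abs_mul, abs_mul, abs_of_nonneg t0, abs_of_nonneg t2]
    have h3 : max (|(1 - t) * s + t * s'| - B) 0
        ≤ (1 - t) * max (|s| - B) 0 + t * max (|s'| - B) 0 := max_le (by
      linarith [mul_le_mul_of_nonneg_left (le_max_left (|s| - B) 0) t2,
        mul_le_mul_of_nonneg_left (le_max_left (|s'| - B) 0) t0]) (by positivity)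
    have h4 := pow_le_pow_left₀ (le_max_right _ _) h3 2
    beta_reduce
    nlinarith [mul_nonneg (mul_nonneg t0 t2) (sq_nonneg (max (|s| - B) 0 - max (|s'| - B) 0))]
  · obtain ⟨σ, hσ⟩ := H63.exists_sub (h.line r) 0
    set n := φ ((r + 0) / 2) (r * 0) with hn
    set Q := 1 + |c - n| + |M + σ| * (2 + |2 * B + r|) with hQ
    refine ⟨-2 * Q - 2 * B - r, fun y hy => ?_⟩
    set q := -((r + y) / 2) - B with hq
    have q1 : Q ≤ q := by linarith
    have a1 := abs_nonneg (c - n)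
    have a2 : 0 ≤ |M + σ| * (2 + |2 * B + r|) := by positivity
    have q2 : 1 ≤ q := by linarith
    have q3 : q ≤ max (|(r + y) / 2| - B) 0 :=
      le_max_of_le_left (by linarith [neg_le_abs ((r + y) / 2)])
    have q4 := pow_le_pow_left₀ (by linarith) q3 2
    have q5 := mul_le_mul_of_nonneg_left q1 (show 0 ≤ q by linarith)
    have q6 : (M + σ) * (2 * q + (2 * B + r)) ≤ |M + σ| * ((2 + |2 * B + r|) * q) := by
      refine (le_abs_self _).trans ?_
      rw [abs_mul]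
      refine mul_le_mul_of_nonneg_left ((abs_add_le _ _).trans ?_) (abs_nonneg _)
      rw [abs_of_nonneg (show 0 ≤ 2 * q by linarith)]
      nlinarith [abs_nonneg (2 * B + r)]
    have q7 := hσ y
    have q8 : y = -(2 * q + (2 * B + r)) := by rw [hq]; ring
    have q9 := mul_le_mul_of_nonneg_left q2 a1
    have e : (M + σ) * (2 * q + (2 * B + r)) = -(M * y) - σ * y := by rw [q8]; ring
    beta_reduce at q7 ⊢
    rw [hQ] at q5
    linarith [le_abs_self (c - n)]

theorem rows (T : ℂ →L[ℝ] ℂ) {ξ η : ℂ} (h1 : ξ = ⟨(T 1).re, (T Complex.I).re⟩)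
    (h2 : η = ⟨(T 1).im, (T Complex.I).im⟩) :
    ‖cz T‖ + ‖cw T‖ + (‖cz T‖ - ‖cw T‖) = ‖Complex.I * ξ + η‖ ∧
      (‖cz T‖ + ‖cw T‖) * (‖cz T‖ - ‖cw T‖) = ip (Complex.I * ξ) η ∧
      ‖cz T‖ - ‖cw T‖ ≤ ‖η‖ ∧ ‖η‖ ≤ ‖cz T‖ + ‖cw T‖ := by
  have z1 : (cz T).re = ((T 1).re + (T Complex.I).im) / 2 := by simp [cz]
  have z2 : (cz T).im = ((T 1).im - (T Complex.I).re) / 2 := by simp [cz]
  have w1 : (cw T).re = ((T 1).re - (T Complex.I).im) / 2 := by simp [cw]; ring
  have w2 : (cw T).im = ((T 1).im + (T Complex.I).re) / 2 := by simp [cw]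
  have e1 : Complex.I * ξ + η = 2 * (Complex.I * (starRingEnd ℂ) (cz T)) := by
    apply Complex.ext <;> simp [h1, h2, z1, z2] <;> ring
  have e2 : η = Complex.I * (starRingEnd ℂ) (cz T) - Complex.I * cw T := by
    apply Complex.ext <;> simp [h2, z1, z2, w1, w2] <;> ring
  have n1 : ‖Complex.I * (starRingEnd ℂ) (cz T)‖ = ‖cz T‖ := by simp
  have n2 : ‖Complex.I * cw T‖ = ‖cw T‖ := by simp
  refine ⟨by rw [e1, norm_mul, n1]; simp; ring, ?_, ?_, ?_⟩
  · rw [← sq_sub_sq, ← ip_self, ← ip_self]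
    simp [h1, h2, z1, z2, w1, w2, ip]
    ring
  · have := norm_sub_norm_le (Complex.I * (starRingEnd ℂ) (cz T)) (Complex.I * cw T)
    rwa [← e2, n1, n2] at this
  · rw [e2]
    exact (norm_sub_le _ _).trans (by rw [n1, n2])

theorem comp_part (l : ℂ →L[ℝ] ℝ) (hl : ∀ z, |l z| ≤ ‖z‖) (A : ℂ →L[ℝ] ℂ) {u : ℂ → ℂ}
    (hu : Differentiable ℝ u) {C : NNReal} (hC : LipschitzWith C u) :
    Lp (‖A‖ + C) (fun x => l (A x + u x)) ∧ ∀ x, gr (fun x => l (A x + u x)) x
      = ⟨l ((A + fderiv ℝ u x) 1), l ((A + fderiv ℝ u x) Complex.I)⟩ := by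
  refine ⟨fun x y => ?_, fun x => ?_⟩
  · have a1 := (le_abs_self _).trans (hl (A (x - y) + (u x - u y)))
    have a2 := norm_add_le (A (x - y)) (u x - u y)
    have a3 := A.le_opNorm (x - y)
    have a4 := hC.norm_sub_le x y
    simp only [map_add, map_sub] at a1 a2 a3 ⊢
    linarith
  · have := (l.hasFDerivAt.comp x (A.hasFDerivAt.add (hu x).hasFDerivAt)).fderiv
    exact Complex.ext (congrArg (fun T : ℂ →L[ℝ] ℝ => T 1) this)
      (congrArg (fun T : ℂ →L[ℝ] ℝ => T Complex.I) this)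

theorem core {φ : ℝ → ℝ → ℝ} (h : LC φ) (hev : ∀ s D, φ (-s) D = φ s D)
    (hmono : ∀ s s' D, 0 ≤ s → s ≤ s' → D ≤ s ^ 2 → φ s D ≤ φ s' D) {A : ℂ →L[ℝ] ℂ} {u : ℂ → ℂ}
    (hu : ContDiff ℝ 2 u) (hc : HasCompactSupport u) (h2 : cz A ≠ 0) (h3 : cw A ≠ 0) :
    0 ≤ ∫ x, (φ ‖cz (A + fderiv ℝ u x)‖ (‖cz (A + fderiv ℝ u x)‖ ^ 2 - ‖cw (A + fderiv ℝ u x)‖ ^ 2)
      - φ ‖cz A‖ (‖cz A‖ ^ 2 - ‖cw A‖ ^ 2)) := by
  obtain ⟨C, hC⟩ := hu.lipschitzWith_of_hasCompactSupport hc (by norm_num)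
  obtain ⟨R, hR⟩ := hc.isCompact.isBounded.subset_ball 0
  have u0 : ∀ x, R ≤ ‖x‖ → u x = 0 := fun x hx =>
    image_eq_zero_of_notMem_tsupport fun h1 => by simpa using (mem_ball_zero_iff.1 (hR h1)).trans_le hx
  have u1 : ∀ x, x ∉ closedBall (0 : ℂ) R → fderiv ℝ u x = 0 := fun x hx =>
    fderiv_of_notMem_tsupport ℝ fun h1 => hx (ball_subset_closedBall (hR h1))
  have hd := hu.differentiable (by norm_num)
  obtain ⟨f1, f2⟩ := comp_part Complex.reCLM Complex.abs_re_le_norm A hd hC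
  obtain ⟨v1, v2⟩ := comp_part Complex.imCLM Complex.abs_im_le_norm A hd hC
  set B := ‖A‖ + C + 1 with hB
  have bT : ∀ x, ‖cz (A + fderiv ℝ u x)‖ + ‖cw (A + fderiv ℝ u x)‖ ≤ B := fun x => by
    rw [← norm_eq_add]
    linarith [norm_add_le A (fderiv ℝ u x), norm_fderiv_le_of_lipschitz ℝ (x₀ := x) hC]
  have bA : ‖cz A‖ + ‖cw A‖ < B := by rw [← norm_eq_add]; linarith [C.coe_nonneg]
  have a0 := norm_pos_iff.2 h2
  have b0 := norm_pos_iff.2 h3
  obtain ⟨p1, p2⟩ := h.pen B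
  obtain ⟨c0, c1, c2, hz⟩ := p1.init (x := ‖cz A‖ + ‖cw A‖) (y := ‖cz A‖ - ‖cw A‖) (by linarith)
  have pz : ∀ s, 0 ≤ s → s ≤ B → max (|s| - B) 0 ^ 2 = 0 := fun s a b => by
    rw [abs_of_nonneg a, max_eq_right (by linarith), sq, mul_zero]
  have e1 : ∀ a b : ℝ, (a + b + (a - b)) / 2 = a := fun a b => by ring
  have e2 : ∀ a b : ℝ, (a + b) * (a - b) = a ^ 2 - b ^ 2 := fun a b => by ring
  have z0 := hz.eq
  simp only [e1, e2, pz _ a0.le (by linarith)] at z0
  have c1p : 0 ≤ c1 := by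
    set t := min ‖cz A‖ (‖cw A‖ ^ 2 / (2 * ‖cz A‖)) with ht
    have t0 : 0 < t := lt_min a0 (by positivity)
    have t1 : t ≤ ‖cz A‖ := min_le_left _ _
    have t2 : t * (2 * ‖cz A‖) ≤ ‖cw A‖ ^ 2 := (le_div_iff₀ (by positivity)).1 (min_le_right _ _)
    have a1 := hz.ge ‖cz A‖ (‖cz A‖ - t) (‖cz A‖ ^ 2 - ‖cw A‖ ^ 2) (by linarith) (by linarith)
      (by unfold AF; linarith)
    have a2 := hmono (‖cz A‖ - t) ‖cz A‖ (‖cz A‖ ^ 2 - ‖cw A‖ ^ 2) (by linarith) (by linarith)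
      (by nlinarith [sq_nonneg t])
    simp only [pz (‖cz A‖ - t) (by linarith) (by linarith)] at a1
    exact nonneg_of_mul_nonneg_left (show 0 ≤ c1 * t by linarith) t0
  have g : G2 fun a b => c1 * a + c2 * (a ^ 2 - b ^ 2) :=
    GQ.add ((g2_fst sbms).smul c1p) (g2_det_mul sbms c2)
  have i1 := integrable_test h.cont A hu hc
  have i2 := integrable_test g.1 A hu hc
  have i3 := g.2 A u hu hc
  set Ψ : ℂ → ℝ := fun x => φ ‖cz (A + fderiv ℝ u x)‖
    (‖cz (A + fderiv ℝ u x)‖ ^ 2 - ‖cw (A + fderiv ℝ u x)‖ ^ 2) - (c0 + c1 * ‖cz (A + fderiv ℝ u x)‖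
      + c2 * (‖cz (A + fderiv ℝ u x)‖ ^ 2 - ‖cw (A + fderiv ℝ u x)‖ ^ 2)) with hΨ
  have i4 : Integrable Ψ := (i1.sub i2).congr (Eventually.of_forall fun x => by
    simp only [hΨ, Pi.sub_apply]; linarith)
  have key : 0 ≤ ∫ x, Ψ x := by
    refine le_of_forall_pos_le_add fun ε hε => ?_
    set m := volume.real (closedBall (0 : ℂ) R) with hm
    have m0 : 0 ≤ m := measureReal_nonneg
    have ε0 : 0 < ε / (m + 1) := by positivity
    obtain ⟨η1, η10, s1⟩ := sweep (p1.aff c0 c1 c2 fun _ _ => rfl) (p2.aff c0 c1 c2 fun _ _ => rfl)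
      hz (R := B) (by linarith) bA ε0
    obtain ⟨η2, η20, s2⟩ := sweep
      (p1.aff c0 (-c1) c2 fun s D => by simp only [hev, abs_neg]; ring)
      (p2.aff c0 (-c1) c2 fun s D => by simp only [hev, abs_neg]; ring)
      hz.refl (R := B) (by linarith) (by linarith) ε0
    have η0 := lt_min η10 η20
    obtain ⟨N1, s1⟩ := s1 _ η0 (min_le_left _ _)
    obtain ⟨N2, s2⟩ := s2 _ η0 (min_le_right _ _)
    obtain ⟨ρ, r1, r2, r3⟩ := s1 _ (le_max_left N1 N2)
    obtain ⟨ρ', r4, r5, r6⟩ := s2 _ (le_max_right N1 N2)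
    have rw0 := rows A rfl rfl
    have rw1 := fun x => rows (A + fderiv ℝ u x) (f2 x) (v2 x)
    have iM : IntegrableOn (fun _ : ℂ => ε / (m + 1)) (closedBall 0 R) :=
      integrableOn_const (isCompact_closedBall _ _).measure_lt_top.ne
    have := chain (R := R) (M := fun x => (min η1 η2)⁻¹ * (Ψ x + ε / (m + 1))) (r := fun i => -ρ' i)
      (N := max N1 N2) f1 v1 (fun x hx => by
        rw [u0 x hx, add_zero]
        simpa [gr] using fderiv_eq_ip (Complex.imCLM.comp A) 0 x)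
      (fun x => (rw1 x).1) (fun x => (rw1 x).2.1)
      (fun x => by linarith [norm_nonneg (cw (A + fderiv ℝ u x))]) rw0.2.2.1 rw0.2.2.2 r4.neg r1
      (fun i => neg_le.1 (r5 i)) r2 (fun x hx => by
        have b1 := norm_nonneg (cz (A + fderiv ℝ u x))
        have b2 := norm_nonneg (cw (A + fderiv ℝ u x))
        have b3 := bT x
        have := r3 _ (‖cz (A + fderiv ℝ u x)‖ - ‖cw (A + fderiv ℝ u x)‖) (by linarith)
          (by linarith) hx b3
        simp only [e1, e2, pz _ b1 (by linarith), add_zero] at this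
        exact (le_inv_mul_iff₀ η0).2 this) (fun x hx => by
        have b1 := norm_nonneg (cz (A + fderiv ℝ u x))
        have b2 := norm_nonneg (cw (A + fderiv ℝ u x))
        have b3 := bT x
        have := r6 (-(‖cz (A + fderiv ℝ u x)‖ - ‖cw (A + fderiv ℝ u x)‖))
          (-(‖cz (A + fderiv ℝ u x)‖ + ‖cw (A + fderiv ℝ u x)‖)) (by linarith) (by linarith)
          (neg_le_neg hx) (by linarith)
        rw [show ∀ a b : ℝ, -((-(a - b) + -(a + b)) / 2) = a from fun a b => by ring,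
          show ∀ a b : ℝ, -(a - b) * -(a + b) = a ^ 2 - b ^ 2 from fun a b => by ring] at this
        simp only [← KI_neg, neg_neg, pz _ b1 (by linarith), add_zero] at this
        exact (le_inv_mul_iff₀ η0).2 this) ((i4.integrableOn.add iM).const_mul _)
    rw [integral_const_mul, integral_add i4.integrableOn iM, setIntegral_const,
      setIntegral_eq_integral_of_forall_compl_eq_zero fun x hx => by
        simp only [hΨ, u1 x hx, add_zero]; linarith] at this
    have a1 := nonneg_of_mul_nonneg_right this (inv_pos.2 η0)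
    have a2 : m * (ε / (m + 1)) ≤ ε := by
      rw [← mul_div_assoc, div_le_iff₀ (by positivity)]
      nlinarith
    rw [smul_eq_mul] at a1
    linarith
  refine (add_nonneg key i3).trans (le_of_eq ?_)
  rw [← integral_add i4 i2]
  refine integral_congr_ae (Eventually.of_forall fun x => ?_)
  simp only [hΨ]
  linarith

theorem local_main (ψ : ℝ → ℝ → ℝ)
    (hconv : ∀ r : ℝ, 0 ≤ r → ConvexOn ℝ {p : ℝ × ℝ | 0 ≤ p.1 ∧ p.2 ≤ 2 * r * p.1 - r ^ 2}
      fun p => ψ p.1 p.2)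
    (hmono : ∀ s s' D : ℝ, 0 ≤ s → s ≤ s' → D ≤ s ^ 2 → ψ s D ≤ ψ s' D) :
    QCm fun F => ψ (√((F 0 0 + F 1 1) ^ 2 + (F 1 0 - F 0 1) ^ 2) / 2) F.det := by
  have h : LC fun s D => ψ |s| D := by
    intro r s D s' D' t t0 t1 a b
    have t2 : 0 ≤ 1 - t := by linarith
    have k : ∀ s D, 0 ≤ AF r s D → D ≤ 2 * |r| * |s| - |r| ^ 2 := fun s D a => by
      unfold AF at a
      have := le_abs_self (r * s)
      rw [abs_mul] at this
      rw [sq_abs]
      linarith
    have h1 := (hconv |r| (abs_nonneg r)).2 (x := (|s|, D)) ⟨abs_nonneg s, k s D a⟩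
      (y := (|s'|, D')) ⟨abs_nonneg s', k s' D' b⟩ t2 t0 (by ring)
    refine le_trans (hmono _ _ _ (abs_nonneg _) ?_ ?_) h1
    · refine (abs_add_le _ _).trans (le_of_eq ?_)
      rw [abs_mul, abs_mul, abs_of_nonneg t0, abs_of_nonneg t2]
      rfl
    · unfold AF at a b
      rw [sq_abs]
      nlinarith [mul_nonneg t2 a, mul_nonneg t0 b, sq_nonneg ((1 - t) * s + t * s' - r)]
  have hW := h.cont
  have h1 : SQC fun A => ψ |‖cz A‖| (‖cz A‖ ^ 2 - ‖cw A‖ ^ 2) := by
    intro A u hu hc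
    have h1 : Continuous (fderiv ℝ u) := hu.continuous_fderiv (by norm_num)
    have hS : IsCompact (tsupport (fderiv ℝ u)) := hc.fderiv ℝ
    set W : (ℂ →L[ℝ] ℂ) → ℝ := fun A => ψ |‖cz A‖| (‖cz A‖ ^ 2 - ‖cw A‖ ^ 2) with hW'
    have hI : Continuous fun A : ℂ →L[ℝ] ℂ => ∫ x, (W (A + fderiv ℝ u x) - W A) := by
      refine (continuous_parametric_integral_of_continuous (μ := volume)
        (f := fun (A : ℂ →L[ℝ] ℂ) (x : ℂ) => W (A + fderiv ℝ u x) - W A)
        ((hW.comp (continuous_fst.add (h1.comp continuous_snd))).sub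
          (hW.comp continuous_fst)) hS).congr fun A => ?_
      refine setIntegral_eq_integral_of_forall_compl_eq_zero fun x hx => ?_
      simp [image_eq_zero_of_notMem_tsupport hx]
    refine H63.dense_le continuous_const hI (fun A h2 h3 => ?_) A
    exact core h (fun s D => by rw [abs_neg]) (fun s s' D a b c => by
      rw [abs_of_nonneg a, abs_of_nonneg (a.trans b)]; exact hmono s s' D a b c) hu hc h2 h3
  have h2 := H79.moll _ hW h1
  simp only [abs_norm, ← det_toCLM] at h2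
  simp only [norm_cz_toCLM] at h2
  exact h2

end Pool.Agent.MP_515557_an.H62
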