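import Pool.Agent.MP_515557_an.H62.Level

/-! Properties of the limit chain: no peaks, local supergradients, position of the gradients. -/

set_option autoImplicit false

open Set Metric Filter Topology

namespace Pool.Agent.MP_515557_an.H62

open H11.Mono

variable {K : Set ℂ} {L : ℝ} {φ t : ℂ → ℝ}

theorem Side.noPeak (h : Side L K φ t) (hφ : Lp L φ) (hK : IsOpen K) {b : ℂ} (hb : b ∈ K) :
    NoPeak fun z => φ z - ip b z := by
  intro x1 c R hc
  by_contra hn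
  push Not at hn
  obtain ⟨d, d0, hd⟩ := Metric.isOpen_iff.1 hK b hb
  set m := φ x1 - ip b x1 - c with hm
  have m0 : 0 < m := sub_pos.2 hc
  set B := |R| + ‖x1‖ + 1 with hB
  have B0 : 0 < B := by positivity
  have L0 := hφ.nonneg
  set e := min (d / (2 * B)) (m / (2 * B ^ 2)) with he
  have e0 : 0 < e := lt_min (by positivity) (by positivity)
  have e1 : e * (2 * B) ≤ d := (le_div_iff₀ (by positivity)).1 (min_le_left _ _)
  have e2 : e * (2 * B ^ 2) ≤ m := (le_div_iff₀ (by positivity)).1 (min_le_right _ _)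
  set ε := m / (8 * (L + ‖b‖ + 1)) with hε
  have ε0 : 0 < ε := by positivity
  have ε1 : ε * (8 * (L + ‖b‖ + 1)) = m := div_mul_cancel₀ _ (by positivity)
  obtain ⟨h, φ', t', h0, h1, h2, -, h3, h4⟩ := h ε ε0
  set G : ℂ → ℝ := fun z => φ' z - ip b z + e / 2 * ‖z - x1‖ ^ 2 with hG
  set S := {z | Jn {z | c < φ z - ip b z} x1 z ∧ G x1 ≤ G z} with hS
  have s1 : ∀ z ∈ S, ‖z‖ ≤ R := fun z hz => not_lt.1 fun h5 => hn z h5.le hz.1
  have s2 : x1 ∈ S := ⟨by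
    simpa using Jn.ray (U := {z | c < φ z - ip b z}) (x := x1) (y := 0) fun t _ _ => by
      simpa using hc, le_rfl⟩
  have cG : Continuous G := by
    have := h3.continuous
    simp only [hG, ip]
    fun_prop
  have s3 : BddAbove (G '' S) := ((isCompact_closedBall (0 : ℂ) R).bddAbove_image
    cG.continuousOn).mono (image_mono fun z hz => mem_closedBall_zero_iff.2 (s1 z hz))
  have q0 : 0 < e * h ^ 2 / 4 := by positivity
  obtain ⟨_, ⟨z, hz, rfl⟩, h5⟩ := exists_lt_of_lt_csSup ⟨_, mem_image_of_mem G s2⟩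
    (show sSup (G '' S) - e * h ^ 2 / 4 < sSup (G '' S) by linarith)
  have z1 : ‖z - x1‖ ≤ B := by linarith [norm_sub_le z x1, s1 z hz, le_abs_self R]
  obtain ⟨y, y1, y2⟩ := h4.np z (b - e * (z - x1)) (hd (by
    rw [mem_ball_iff_norm, sub_sub_cancel_left, norm_neg, norm_mul, Complex.norm_real,
      Real.norm_eq_abs, abs_of_pos e0]
    nlinarith [mul_pos e0 B0])) _ q0
  have g1 : G z + e * h ^ 2 / 4 ≤ G (z + y) := by
    have a1 : ‖z + y - x1‖ ^ 2 = ‖z - x1‖ ^ 2 + 2 * ip (z - x1) y + h ^ 2 := by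
      rw [← y1, ← ip_self, ← ip_self, ← ip_self]
      simp only [ip, Complex.add_re, Complex.add_im, Complex.sub_re, Complex.sub_im]
      ring
    have a2 : ip (b - e * (z - x1)) y = ip b y - e * ip (z - x1) y := by
      simp only [ip, Complex.mul_re, Complex.mul_im, Complex.sub_re, Complex.sub_im,
        Complex.ofReal_re, Complex.ofReal_im]
      ring
    simp only [hG]
    rw [a1, ip_add]
    rw [a2] at y2
    linarith
  have g2 : z + y ∈ S := by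
    refine ⟨hz.1.trans (Jn.ray fun τ τ0 τ1 => ?_), by linarith [hz.2]⟩
    have a0 : ‖(τ : ℂ) * y‖ ≤ ε := by
      rw [norm_mul, Complex.norm_real, Real.norm_eq_abs, abs_of_nonneg τ0, y1]
      nlinarith
    have a1 := abs_le.1 ((hφ.abs_le z (τ * y)).trans (mul_le_mul_of_nonneg_left a0 L0))
    have a2 := abs_le.1 ((abs_ip_le b (τ * y)).trans (mul_le_mul_of_nonneg_left a0 (norm_nonneg b)))
    have a3 := hz.2
    have a4 := abs_le.1 (h2 z)
    have a5 := abs_le.1 (h2 x1)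
    have a6 := mul_le_mul_of_nonneg_left (pow_le_pow_left₀ (norm_nonneg _) z1 2) e0.le
    have a7 := mul_nonneg ε0.le (add_nonneg L0 (norm_nonneg b))
    simp only [hG, sub_self, norm_zero] at a3
    show c < φ (z + τ * y) - ip b (z + τ * y)
    rw [ip_add]
    linarith [a1.1, a2.2, a4.2, a5.1]
  linarith [le_csSup s3 (mem_image_of_mem G g2)]

theorem Side.sup (h : Side L K φ t) {x : ℂ} {r m : ℝ} (r0 : 0 ≤ r) (m0 : 0 < m)
    (hm : ∀ z, ‖z‖ ≤ r → φ (x + z) + m ≤ t (x + z)) {ε : ℝ} (hε : 0 < ε) :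
    ∃ b ∈ K, ∀ z, ‖z‖ ≤ r → φ (x + z) ≤ φ x + ip b z + ε := by
  set e := min (min 1 (m / 4)) (ε / (r + 2 * |L| + 4)) with he
  have e0 : 0 < e := lt_min (lt_min one_pos (by positivity)) (by positivity)
  have e1 : e ≤ 1 := (min_le_left _ _).trans (min_le_left _ _)
  have e2 : e ≤ m / 4 := (min_le_left _ _).trans (min_le_right _ _)
  have e3 : e * (r + 2 * |L| + 4) ≤ ε := (le_div_iff₀ (by positivity)).1 (min_le_right _ _)
  obtain ⟨h, φ', t', h0, h1, h2, h3, h4, h5⟩ := h e e0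
  rw [abs_of_nonneg h4.nonneg] at e3
  have lt : ∀ z, ‖z‖ ≤ r → φ' (x + z) < t' (x + z) := fun z hz => by
    linarith [hm z hz, (abs_le.1 (h2 (x + z))).2, (abs_le.1 (h3 (x + z))).1]
  have mid : ∀ w y, ‖w‖ ≤ r → ‖y‖ = h → φ' (x + w + y) + φ' (x + w - y) ≤ 2 * φ' (x + w) :=
    fun w y hw hy => le_of_forall_pos_le_add fun η η0 => by
      obtain ⟨b, -, hb⟩ := h5.cc _ (lt w hw) _ (half_pos η0)
      have a1 := hb y hy
      have a2 := hb (-y) (by rw [norm_neg, hy])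
      rw [ip_neg, ← sub_eq_add_neg (x + w)] at a2
      linarith
  obtain ⟨b, b1, b2⟩ := h5.cc x (by simpa using lt 0 (by simpa using r0)) _ (mul_pos e0 h0)
  refine ⟨b, b1, fun z hz => ?_⟩
  by_cases z0 : z = 0
  · simp [z0, ip, hε.le]
  have n0 := norm_pos_iff.2 z0
  set y : ℂ := ((h / ‖z‖ : ℝ) : ℂ) * z with hy
  have y1 : ‖y‖ = h := by
    rw [hy, norm_mul, Complex.norm_real, Real.norm_eq_abs, abs_of_pos (div_pos h0 n0)]
    field_simp
  have ind : ∀ k : ℕ, k * h ≤ r → φ' (x + (k + 1) * y) - φ' (x + k * y) ≤ φ' (x + y) - φ' x ∧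
      φ' (x + (k + 1) * y) ≤ φ' x + (k + 1) * (φ' (x + y) - φ' x) := by
    intro k
    induction k with
    | zero => intro _; simp
    | succ k ih =>
      intro hk
      push_cast at hk ⊢
      obtain ⟨i1, i2⟩ := ih (by linarith)
      have := mid ((k + 1) * y) y (by
        rw [norm_mul, y1, show ((k : ℂ) + 1) = ((k + 1 : ℕ) : ℂ) by push_cast; rfl,
          Complex.norm_natCast]
        push_cast
        exact hk) y1
      rw [show x + (k + 1) * y + y = x + (k + 1 + 1) * y by ring,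
        show x + (k + 1) * y - y = x + k * y by ring] at this
      exact ⟨by linarith, by linarith⟩
  set k := ⌊‖z‖ / h⌋₊ with hk
  have k1 := (le_div_iff₀ h0).1 (Nat.floor_le (div_nonneg n0.le h0.le))
  have k2 := (div_lt_iff₀ h0).1 (Nat.lt_floor_add_one (‖z‖ / h))
  rw [← hk] at k1 k2
  set θ := k + 1 - ‖z‖ / h with hθ
  have θ0 : θ * h = (k + 1) * h - ‖z‖ := by rw [hθ]; field_simp
  have θ1 : 0 ≤ θ := nonneg_of_mul_nonneg_left (by rw [θ0]; linarith) h0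
  have θ2 : θ ≤ 1 := le_of_mul_le_mul_right (by rw [θ0]; linarith) h0
  have e4 : ((k : ℂ) + 1) * y = z + θ * y := by
    have a1 : (h : ℂ) ≠ 0 := by exact_mod_cast h0.ne'
    have a2 : ((‖z‖ : ℝ) : ℂ) ≠ 0 := by exact_mod_cast n0.ne'
    rw [hθ, hy]
    push_cast
    field_simp
    ring
  have e5 : (k + 1) * ip b y = ip b z + θ * ip b y := by
    rw [← ip_mul, ← ip_mul, ← ip_add, ← e4]
    push_cast
    rfl
  have c1 := (ind k (k1.trans hz)).2
  have c2 := b2 y y1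
  have c3 := b2 (-y) (by rw [norm_neg, y1])
  have c4 := abs_le.1 (h4.abs_le x (-y))
  have c5 := abs_le.1 (h4.abs_le (x + z) (θ * y))
  rw [ip_neg] at c3
  rw [norm_neg, y1] at c4
  rw [norm_mul, Complex.norm_real, Real.norm_eq_abs, abs_of_nonneg θ1, y1] at c5
  rw [e4, ← add_assoc] at c1
  have L0 := h4.nonneg
  have c6 := mul_le_mul_of_nonneg_left (show φ' (x + y) - φ' x ≤ ip b y + e * h by linarith)
    (show (0 : ℝ) ≤ k + 1 by positivity)
  have c7 := mul_le_mul_of_nonneg_left (show ip b y ≤ L * h + e * h by linarith [c4.1]) θ1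
  have c8 := mul_le_mul_of_nonneg_right θ2 (show 0 ≤ L * h + e * h by positivity)
  have c9 := mul_le_mul_of_nonneg_right θ2 (show 0 ≤ L * h by positivity)
  have d1 := mul_le_mul_of_nonneg_left h1 L0
  have d2 := mul_le_mul_of_nonneg_left (h1.trans e1) e0.le
  have d3 := mul_le_mul_of_nonneg_left (show (k + 1) * h ≤ r + 1 by linarith) e0.le
  linarith [(abs_le.1 (h2 (x + z))).1, (abs_le.1 (h2 x)).2, c5.1]

/-- Differentiability at `x` with gradient `p`. -/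
def Df (φ : ℂ → ℝ) (x p : ℂ) : Prop :=
  ∀ c, 0 < c → ∃ r, 0 < r ∧ ∀ z, ‖z‖ ≤ r → |φ (x + z) - φ x - ip p z| ≤ c * ‖z‖

theorem Df.neg {x p : ℂ} (h : Df φ x p) : Df (fun z => -φ z) x (-p) := fun c c0 => by
  obtain ⟨r, r0, hr⟩ := h c c0
  refine ⟨r, r0, fun z hz => ?_⟩
  rw [neg_ip, ← abs_neg]
  refine le_trans (le_of_eq ?_) (hr z hz)
  congr 1
  ring

/-- The admissible slopes. -/
def KK (α β : ℝ) : Set ℂ := {b | ‖b‖ < α ∨ β < ‖b‖}

theorem KK_ne (α β : ℝ) : (KK α β).Nonempty :=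
  ⟨(|β| + 1 : ℝ), Or.inr (by
    rw [Complex.norm_real, Real.norm_eq_abs]
    linarith [le_abs_self β, le_abs_self (|β| + 1)])⟩

theorem KK_open (α β : ℝ) : IsOpen (KK α β) :=
  (isOpen_lt continuous_norm continuous_const).union (isOpen_lt continuous_const continuous_norm)

theorem Side.mid {δ : ℂ → ℝ} {L' : ℝ} (h : Side L K φ t) (hδ : Lp L' δ)
    (e : ∀ x, δ x = 2 * (t x - φ x)) (x a : ℂ) (ha : L' * ‖a‖ < δ x) :
    φ (x + a) + φ (x - a) ≤ 2 * φ x := by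
  refine le_of_forall_pos_le_add fun ε hε => ?_
  obtain ⟨b, -, hb⟩ := h.sup (x := x) (m := (δ x - L' * ‖a‖) / 2) (norm_nonneg a) (by linarith)
    (fun z hz => by
      linarith [(abs_le.1 (hδ.abs_le x z)).1, mul_le_mul_of_nonneg_left hz hδ.nonneg, e (x + z)])
    (half_pos hε)
  have a1 := hb a le_rfl
  have a2 := hb (-a) (norm_neg a).le
  rw [ip_neg, ← sub_eq_add_neg] at a2
  linarith

theorem Side.tight {δ : ℂ → ℝ} {L' α β : ℝ} (h : Side L (KK α β) φ t) (hδ : Lp L' δ)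
    (e : ∀ x, δ x = 2 * (t x - φ x)) {x p : ℂ} (hx : 0 < δ x) (hp : Df φ x p) :
    ‖p‖ ≤ α ∨ β ≤ ‖p‖ := by
  by_contra hc
  push Not at hc
  set c := min (‖p‖ - α) (β - ‖p‖) / 2 with hc'
  have c0 : 0 < c := half_pos (lt_min (by linarith [hc.1]) (by linarith [hc.2]))
  have c1 := min_le_left (‖p‖ - α) (β - ‖p‖)
  have c2 := min_le_right (‖p‖ - α) (β - ‖p‖)
  have L0 := hδ.nonneg
  obtain ⟨r, r0, hr⟩ := hp c c0
  set s := min r (δ x / (2 * (L' + 1))) with hs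
  have s0 : 0 < s := lt_min r0 (by positivity)
  have s1 : s * (2 * (L' + 1)) ≤ δ x := (le_div_iff₀ (by positivity)).1 (min_le_right _ _)
  obtain ⟨b, b1, hb⟩ := h.sup (x := x) (m := δ x / 4) s0.le (by linarith) (fun z hz => by
    linarith [(abs_le.1 (hδ.abs_le x z)).1, mul_le_mul_of_nonneg_left hz L0, e (x + z)])
    (mul_pos c0 s0)
  have b2 : ‖p - b‖ ≤ 2 * c := by
    rcases (norm_nonneg (p - b)).lt_or_eq with n0 | n0
    swap
    · linarith
    have n : ‖((s / ‖p - b‖ : ℝ) : ℂ) * (p - b)‖ = s := by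
      rw [norm_mul, Complex.norm_real, Real.norm_eq_abs, abs_of_pos (div_pos s0 n0)]
      field_simp
    have a1 := hb _ n.le
    have a2 := (abs_le.1 (hr _ (n.le.trans (min_le_left _ _)))).1
    have a3 : ip (p - b) (((s / ‖p - b‖ : ℝ) : ℂ) * (p - b)) = s * ‖p - b‖ := by
      rw [ip_mul, ip_self]; field_simp
    rw [sub_ip] at a3
    rw [n] at a2
    exact le_of_mul_le_mul_left (by linarith) s0
  have b3 := abs_le.1 ((abs_norm_sub_norm_le p b).trans b2)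
  rcases b1 with b1 | b1 <;> linarith [b3.1, b3.2]

theorem between {α β R : ℝ} {η x p : ℂ} {t' : ℂ → ℝ} (h : Side L (KK α β) φ t)
    (h' : Side L (KK α β) (fun z => -φ z) t') (hφ : Lp L φ) (hf : ∀ z, R ≤ ‖z‖ → φ z = ip η z)
    (h1 : α ≤ ‖η‖) (h2 : ‖η‖ ≤ β) (hp : Df φ x p) : α ≤ ‖p‖ ∧ ‖p‖ ≤ β := by
  have key : ∀ ρ, ρ < α ∨ β < ρ → ¬(‖p‖ < ρ ∧ ρ < ‖η‖) ∧ ¬(‖η‖ < ρ ∧ ρ < ‖p‖) := fun ρ hρ =>
    top hφ.continuous hf hp
      (fun b hb => h.noPeak hφ (KK_open α β) (show ‖b‖ < α ∨ β < ‖b‖ by rwa [hb])) fun b hb => by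
        have := h'.noPeak hφ.neg (KK_open α β) (b := -b)
          (show ‖-b‖ < α ∨ β < ‖-b‖ by rwa [norm_neg, hb])
        simp only [neg_ip] at this
        simpa only [neg_sub, sub_neg_eq_add, neg_add_eq_sub] using this
  refine ⟨not_lt.1 fun h3 => ?_, not_lt.1 fun h3 => ?_⟩
  · exact (key ((‖p‖ + α) / 2) (Or.inl (by linarith))).1 ⟨by linarith, by linarith⟩
  · exact (key ((‖p‖ + β) / 2) (Or.inr (by linarith))).2 ⟨by linarith, by linarith⟩

/-- The chain of levelings. -/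
theorem level {R : ℝ} {η : ℂ} {v : ℂ → ℝ} (N : ℕ) (hv : Lp L v)
    (hf : ∀ x, R ≤ ‖x‖ → v x = ip η x) {α β : ℕ → ℝ} (h1 : ∀ i : ℕ, α i ≤ i * ‖η‖)
    (h2 : ∀ i : ℕ, i * ‖η‖ ≤ β i) :
    ∃ (Φ δ : ℕ → ℂ → ℝ) (L' : ℕ → ℝ), InL L R η Φ ∧ (∀ x, Φ (N + 1) x = Φ N x + v x) ∧
      (∀ k x, δ k x = Φ (k + 2) x - 2 * Φ (k + 1) x + Φ k x) ∧ (∀ k, Lp (L' k) (δ k)) ∧ ∀ k < N,
      (∀ x a, L' k * ‖a‖ < δ k x → Φ (k + 1) (x + a) + Φ (k + 1) (x - a) ≤ 2 * Φ (k + 1) x) ∧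
      (∀ x a, L' k * ‖a‖ < -δ k x → 2 * Φ (k + 1) x ≤ Φ (k + 1) (x + a) + Φ (k + 1) (x - a)) ∧
      ∀ x p, Df (Φ (k + 1)) x p → α (k + 1) ≤ ‖p‖ ∧ ‖p‖ ≤ β (k + 1) ∧
        (δ k x = 0 ∨ ‖p‖ ≤ α (k + 1) ∨ β (k + 1) ≤ ‖p‖) := by
  obtain ⟨Φ, a1, a2, a3⟩ := exists_level (K := fun i => KK (α i) (β i)) (fun i => KK_ne _ _) N hv hf
  have lp : ∀ k : ℕ, Lp ((k + 2 : ℕ) * L + 2 * ((k + 1 : ℕ) * L) + k * L)
      fun x => Φ (k + 2) x - 2 * Φ (k + 1) x + Φ k x := fun k x y => by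
    linarith [a1.lip (k + 2) x y, (a1.lip (k + 1)).neg x y, a1.lip k x y]
  refine ⟨Φ, fun k x => Φ (k + 2) x - 2 * Φ (k + 1) x + Φ k x, _, a1, a2, fun _ _ => rfl, lp,
    fun k hk => ?_⟩
  obtain ⟨s1, s2⟩ := a3 k hk
  have e1 : ∀ x, Φ (k + 2) x - 2 * Φ (k + 1) x + Φ k x
      = 2 * ((Φ k x + Φ (k + 2) x) / 2 - Φ (k + 1) x) := fun x => by ring
  have e2 : ∀ x, -(Φ (k + 2) x - 2 * Φ (k + 1) x + Φ k x)
      = 2 * (-((Φ k x + Φ (k + 2) x) / 2) - -Φ (k + 1) x) := fun x => by ring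
  refine ⟨s1.mid (lp k) e1, fun x a ha => by linarith [s2.mid (lp k).neg e2 x a ha],
    fun x p hp => ?_⟩
  have n : ‖((k + 1 : ℕ) : ℂ) * η‖ = (k + 1 : ℕ) * ‖η‖ := by rw [norm_mul, Complex.norm_natCast]
  obtain ⟨b1, b2⟩ := between s1 s2 (a1.lip (k + 1)) (a1.far (k + 1)) (by rw [n]; exact h1 _)
    (by rw [n]; exact h2 _) hp
  refine ⟨b1, b2, ?_⟩
  rcases lt_trichotomy (Φ (k + 2) x - 2 * Φ (k + 1) x + Φ k x) 0 with c | c | c
  · have := s2.tight (lp k).neg e2 (neg_pos.2 c) hp.neg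
    rw [norm_neg] at this
    exact Or.inr this
  · exact Or.inl c
  · exact Or.inr (s1.tight (lp k) e1 c hp)

end Pool.Agent.MP_515557_an.H62
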