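import Pool.Agent.MP_515557_an.H11.MBasic

/-! A function without peaks and pits for all slopes on a circle has its gradient on one side of
the circle. -/

set_option autoImplicit false

open Set Metric Filter Topology Complex

namespace Pool.Agent.MP_515557_an.H62

open H11.Mono

/-- Two points lie in a common compact connected subset of `U`. -/
def Jn (U : Set ℂ) (x y : ℂ) : Prop :=
  ∃ K, IsCompact K ∧ IsPreconnected K ∧ K ⊆ U ∧ x ∈ K ∧ y ∈ K

theorem Jn.symm {U : Set ℂ} {x y : ℂ} (h : Jn U x y) : Jn U y x := by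
  obtain ⟨K, a, b, c, d, e⟩ := h
  exact ⟨K, a, b, c, e, d⟩

theorem Jn.mono {U V : Set ℂ} {x y : ℂ} (h : Jn U x y) (hU : U ⊆ V) : Jn V x y := by
  obtain ⟨K, a, b, c, d, e⟩ := h
  exact ⟨K, a, b, c.trans hU, d, e⟩

theorem Jn.trans {U : Set ℂ} {x y z : ℂ} (h : Jn U x y) (h' : Jn U y z) : Jn U x z := by
  obtain ⟨K, a, b, c, d, e⟩ := h
  obtain ⟨K', a', b', c', d', e'⟩ := h'
  exact ⟨K ∪ K', a.union a', b.union y e d' b', union_subset c c', Or.inl d, Or.inr e'⟩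

theorem Jn.right {U : Set ℂ} {x y : ℂ} (h : Jn U x y) : y ∈ U := by
  obtain ⟨K, -, -, c, -, e⟩ := h
  exact c e

theorem Jn.ray {U : Set ℂ} {x y : ℂ} (h : ∀ t : ℝ, 0 ≤ t → t ≤ 1 → x + t * y ∈ U) :
    Jn U x (x + y) := by
  have c : Continuous fun t : ℝ => x + t * y := by fun_prop
  refine ⟨(fun t : ℝ => x + t * y) '' Icc 0 1, isCompact_Icc.image c,
    isPreconnected_Icc.image _ c.continuousOn, ?_, ⟨0, by simp, by simp⟩, ⟨1, by simp, by simp⟩⟩
  rintro _ ⟨t, ht, rfl⟩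
  exact h t ht.1 ht.2

/-- Every component of every superlevel set is unbounded. -/
def NoPeak (g : ℂ → ℝ) : Prop := ∀ x c R, c < g x → ∃ a, R ≤ ‖a‖ ∧ Jn {z | c < g z} x a

theorem const_of_exp {T : Type*} [TopologicalSpace T] {s : Set T} (hs : IsPreconnected s)
    {f g : T → ℂ} (hf : ContinuousOn f s) (hg : ContinuousOn g s)
    (h : ∀ z ∈ s, exp (f z) = exp (g z)) {x y : T} (hx : x ∈ s) (hy : y ∈ s) :
    f y - f x = g y - g x := by
  have h1 : (exp ⁻¹' {1}).Countable := countable_preimage_exp.2 (countable_singleton 1)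
  have h2 := h1.isTotallyDisconnected ((fun z => f z - g z) '' s) (by
    rintro _ ⟨z, hz, rfl⟩
    exact exp_eq_exp_iff_exp_sub_eq_one.1 (h z hz)) (hs.image _ (hf.sub hg))
  have h3 : f x - g x = f y - g y := h2 ⟨x, hx, rfl⟩ ⟨y, hy, rfl⟩
  linear_combination -h3

theorem log_one_sub {T : Type*} [TopologicalSpace T] {s : Set T} {w : T → ℂ}
    (hw : ContinuousOn w s) (h : ∀ z ∈ s, ‖w z‖ < 1) {c : ℂ} (hc : c ≠ 0) :
    ∃ L : T → ℂ, ContinuousOn L s ∧ ∀ z ∈ s, exp (L z) = c * (1 - w z) := by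
  have h1 : ∀ z ∈ s, 1 - w z ∈ slitPlane := fun z hz => by
    rw [sub_eq_add_neg]
    exact mem_slitPlane_of_norm_lt_one (by rw [norm_neg]; exact h z hz)
  refine ⟨fun z => log c + log (1 - w z), continuousOn_const.add
    ((continuousOn_const.sub hw).clog h1), fun z hz => ?_⟩
  rw [exp_add, exp_log hc, exp_log (slitPlane_ne_zero (h1 z hz))]

theorem no_log {ρ : ℝ} (hρ : 0 < ρ) {L : ℂ → ℂ} (hL : ContinuousOn L {b | ‖b‖ = ρ})
    (h : ∀ b, ‖b‖ = ρ → exp (L b) = b) : False := by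
  have n : ∀ t : ℝ, ‖(ρ : ℂ) * exp (t * I)‖ = ρ := fun t => by
    rw [norm_mul, norm_exp_ofReal_mul_I, mul_one, norm_real, Real.norm_eq_abs, abs_of_pos hρ]
  have h1 := const_of_exp (s := (univ : Set ℝ)) isPreconnected_univ
    (f := fun t => L (ρ * exp (t * I))) (g := fun t => log ρ + t * I)
    (hL.comp (by fun_prop) fun t _ => n t) (by fun_prop) (fun t _ => by
      rw [h _ (n t), exp_add, exp_log (by exact_mod_cast hρ.ne')])
    (mem_univ 0) (mem_univ (2 * Real.pi))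
  have e : exp (((2 * Real.pi : ℝ) : ℂ) * I) = exp (((0 : ℝ) : ℂ) * I) := by
    push_cast
    rw [exp_two_pi_mul_I, zero_mul, exp_zero]
  simp only [e, sub_self] at h1
  have h2 := congrArg im h1
  simp at h2

/-- A continuous logarithm of `z - a` on `K`. -/
def HL (K : Set ℂ) (a : ℂ) : Prop := ∃ L : ℂ → ℂ, ContinuousOn L K ∧ ∀ z ∈ K, exp (L z) = z - a

theorem HL.near {K : Set ℂ} {a a' : ℂ} (h : HL K a) (hd : ∀ z ∈ K, ‖a' - a‖ < ‖z - a‖) :
    HL K a' := by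
  obtain ⟨L, h1, h2⟩ := h
  have n : ∀ z ∈ K, z - a ≠ 0 := fun z hz => norm_pos_iff.1 ((norm_nonneg _).trans_lt (hd z hz))
  obtain ⟨L', h3, h4⟩ := log_one_sub (s := K) (w := fun z => (a' - a) / (z - a))
    (continuousOn_const.div (by fun_prop) n) (fun z hz => by
      rw [norm_div, div_lt_one (norm_pos_iff.2 (n z hz))]; exact hd z hz) one_ne_zero
  refine ⟨fun z => L z + L' z, h1.add h3, fun z hz => ?_⟩
  have := n z hz
  rw [exp_add, h2 z hz, h4 z hz]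
  field_simp
  ring

theorem HL.far {K : Set ℂ} {a : ℂ} (ha : a ≠ 0) (hd : ∀ z ∈ K, ‖z‖ < ‖a‖) : HL K a := by
  obtain ⟨L', h3, h4⟩ := log_one_sub (s := K) (w := fun z => z / a) (by fun_prop) (fun z hz => by
      rw [norm_div, div_lt_one (norm_pos_iff.2 ha)]; exact hd z hz) (neg_ne_zero.2 ha)
  refine ⟨L', h3, fun z hz => ?_⟩
  rw [h4 z hz]
  field_simp
  ring

theorem HL.join {K : Set ℂ} (hK : IsClosed K) {a a' : ℂ} (h : Jn Kᶜ a a') : HL K a → HL K a' := by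
  obtain ⟨P, -, p1, p2, p3, p4⟩ := h
  refine p1.induction₂' (fun x y => HL K x → HL K y) (fun x hx => ?_)
    (fun _ _ _ _ _ _ f g => g ∘ f) p3 p4
  obtain ⟨d, d0, hd⟩ := Metric.isOpen_iff.1 hK.isOpen_compl x (p2 hx)
  have h1 : ∀ z ∈ K, d ≤ ‖z - x‖ := fun z hz =>
    not_lt.1 fun hlt => hd (mem_ball_iff_norm.2 hlt) hz
  filter_upwards [mem_nhdsWithin_of_mem_nhds (ball_mem_nhds x (half_pos d0))] with y hy
  rw [mem_ball_iff_norm] at hy
  refine ⟨fun h => h.near fun z hz => by linarith [h1 z hz], fun h => h.near fun z hz => ?_⟩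
  have := norm_sub_le_norm_sub_add_norm_sub z y x
  rw [norm_sub_rev x y]
  linarith [h1 z hz]

theorem exists_angle {s : Set ℂ} {U : ℂ → Set ℂ} {u v : ℂ → ℂ} {a : ℂ}
    (hU : IsOpen {p : ℂ × ℂ | p.2 ∈ U p.1}) (hu : Continuous u) (hv : Continuous v)
    (hj : ∀ t ∈ s, Jn (U t) (u t) (v t))
    (hl : ∀ t ∈ s, ∀ K, IsCompact K → K ⊆ U t → HL K a) :
    ∃ θ : ℂ → ℂ, ContinuousOn θ s ∧ ∀ t ∈ s, exp (θ t) * (u t - a) = v t - a := by
  have ex : ∀ t, ∃ θ : ℂ, t ∈ s → ∀ K, IsCompact K → IsPreconnected K → K ⊆ U t → u t ∈ K →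
      v t ∈ K → ∀ L : ℂ → ℂ, ContinuousOn L K → (∀ z ∈ K, exp (L z) = z - a) →
      θ = L (v t) - L (u t) := by
    intro t
    by_cases ht : t ∈ s
    swap
    · exact ⟨0, fun h => absurd h ht⟩
    obtain ⟨K, k1, k2, k3, k4, k5⟩ := hj t ht
    obtain ⟨L, l1, l2⟩ := hl t ht K k1 k3
    refine ⟨L (v t) - L (u t), fun _ K' m1 m2 m3 m4 m5 L' n1 n2 => ?_⟩
    obtain ⟨M, o1, o2⟩ := hl t ht (K ∪ K') (k1.union m1) (union_subset k3 m3)
    rw [const_of_exp k2 l1 (o1.mono subset_union_left)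
        (fun z hz => by rw [l2 z hz, o2 z (Or.inl hz)]) k4 k5,
      const_of_exp m2 n1 (o1.mono subset_union_right)
        (fun z hz => by rw [n2 z hz, o2 z (Or.inr hz)]) m4 m5]
  choose θ hθ using ex
  refine ⟨θ, fun t ht => ?_, fun t ht => ?_⟩
  · obtain ⟨K, k1, k2, k3, k4, k5⟩ := hj t ht
    have op : IsOpen (U t) := hU.preimage (f := fun z => (t, z)) (by fun_prop)
    obtain ⟨d, d0, hd⟩ := nhds_basis_closedBall.mem_iff.1 (op.mem_nhds (k3 k4))
    obtain ⟨e, e0, he⟩ := nhds_basis_closedBall.mem_iff.1 (op.mem_nhds (k3 k5))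
    set K' := K ∪ closedBall (u t) d ∪ closedBall (v t) e with hK'
    have m1 : IsCompact K' := (k1.union (isCompact_closedBall _ _)).union (isCompact_closedBall _ _)
    have m2 : IsPreconnected K' :=
      (k2.union _ k4 (mem_closedBall_self d0.le) (convex_closedBall _ _).isPreconnected).union _
        (Or.inl k5) (mem_closedBall_self e0.le) (convex_closedBall _ _).isPreconnected
    have m3 : K' ⊆ U t := union_subset (union_subset k3 hd) he
    have n1 : K' ∈ 𝓝 (u t) := mem_of_superset (closedBall_mem_nhds _ d0)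
      (subset_union_right.trans subset_union_left)
    have n2 : K' ∈ 𝓝 (v t) := mem_of_superset (closedBall_mem_nhds _ e0) subset_union_right
    obtain ⟨L, l1, l2⟩ := hl t ht K' m1 m3
    have ev : ∀ᶠ t' in 𝓝 t, ∀ z ∈ K', z ∈ U t' :=
      m1.eventually_forall_of_forall_eventually (P := fun t' z => z ∈ U t') fun z hz =>
        hU.mem_nhds (m3 hz)
    have c : ContinuousAt (fun t' => L (v t') - L (u t')) t :=
      ((l1.continuousAt n2).comp hv.continuousAt).sub ((l1.continuousAt n1).comp hu.continuousAt)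
    refine c.continuousWithinAt.congr_of_eventuallyEq ?_
      (hθ t ht K' m1 m2 m3 (mem_of_mem_nhds n1) (mem_of_mem_nhds n2) L l1 l2)
    filter_upwards [self_mem_nhdsWithin, mem_nhdsWithin_of_mem_nhds ev,
      mem_nhdsWithin_of_mem_nhds (hu.continuousAt n1),
      mem_nhdsWithin_of_mem_nhds (hv.continuousAt n2)] with t' a1 a2 a3 a4
    exact hθ t' a1 K' m1 m2 a2 a3 a4 L l1 l2
  · obtain ⟨K, k1, k2, k3, k4, k5⟩ := hj t ht
    obtain ⟨L, l1, l2⟩ := hl t ht K k1 k3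
    rw [hθ t ht K k1 k2 k3 k4 k5 L l1 l2, ← l2 _ k4, ← l2 _ k5, ← exp_add, sub_add_cancel]

theorem ip_add (a x y : ℂ) : ip a (x + y) = ip a x + ip a y := by simp only [ip, add_re, add_im]; ring

theorem ip_sub (a x y : ℂ) : ip a (x - y) = ip a x - ip a y := by simp only [ip, sub_re, sub_im]; ring

theorem ip_mul (a x : ℂ) (t : ℝ) : ip a (t * x) = t * ip a x := by
  simp only [ip, mul_re, mul_im, ofReal_re, ofReal_im]; ring

theorem sub_ip (a b x : ℂ) : ip (a - b) x = ip a x - ip b x := by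
  simp only [ip, sub_re, sub_im]; ring

theorem neg_ip (a x : ℂ) : ip (-a) x = -ip a x := by simp only [ip, neg_re, neg_im]; ring

theorem ip_neg (a x : ℂ) : ip a (-x) = -ip a x := by simp only [ip, neg_re, neg_im]; ring

theorem far_join {q : ℂ} (hq : q ≠ 0) (c R : ℝ) : ∃ R', ∀ a z, R' ≤ ‖a‖ → c < ip q a →
    R * ‖q‖ ≤ ip q z → c < ip q z → Jn {z | R ≤ ‖z‖ ∧ c < ip q z} a z := by
  have q0 := norm_pos_iff.2 hq
  have key : ∀ n a z : ℂ, ‖n‖ = ‖q‖ → R * ‖q‖ ≤ ip n a → c < ip q a → R * ‖q‖ ≤ ip n z →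
      c < ip q z → Jn {z | R ≤ ‖z‖ ∧ c < ip q z} a z := by
    intro n a z hn a1 a2 z1 z2
    have := Jn.ray (U := {z | R ≤ ‖z‖ ∧ c < ip q z}) (x := a) (y := z - a) fun t t0 t1 => by
      constructor
      · have h1 := (le_abs_self _).trans (abs_ip_le n (a + t * (z - a)))
        rw [ip_add, ip_mul, ip_sub, hn] at h1
        refine le_of_mul_le_mul_right ?_ q0
        nlinarith
      · rw [ip_add, ip_mul, ip_sub]
        rcases t0.lt_or_eq with t0 | rfl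
        · nlinarith
        · simpa using a2
    rwa [add_sub_cancel] at this
  set R1 := |R| + |c| / ‖q‖ with hR1
  have r0 : 0 ≤ |c| / ‖q‖ := by positivity
  have r1 : R1 * ‖q‖ = |R| * ‖q‖ + |c| := by rw [hR1]; field_simp
  have r2 := mul_le_mul_of_nonneg_right (le_abs_self R) q0.le
  have r3 : 0 ≤ |R| * ‖q‖ := by positivity
  refine ⟨2 * R1, fun a z a1 a2 z1 z2 => ?_⟩
  rcases le_total (R * ‖q‖) (ip q a) with h1 | h1
  · exact key q a z rfl h1 a2 z1 z2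
  have h2 : |ip q a| ≤ R1 * ‖q‖ :=
    abs_le.2 ⟨by linarith [neg_abs_le c], by linarith [abs_nonneg c]⟩
  have h3 : ip q a ^ 2 + ip (I * q) a ^ 2 = (‖a‖ * ‖q‖) ^ 2 := by
    rw [mul_pow, ← ip_self, ← ip_self]
    simp only [ip, mul_re, mul_im, I_re, I_im]
    ring
  have h4 : R1 * ‖q‖ ≤ |ip (I * q) a| := by
    have b1 := mul_le_mul_of_nonneg_right a1 q0.le
    have b2 := sq_le_sq' (abs_le.1 h2).1 (abs_le.1 h2).2
    have b3 : 0 ≤ R1 * ‖q‖ := (abs_nonneg _).trans h2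
    refine le_of_sq_le_sq ?_ (abs_nonneg _)
    rw [sq_abs]
    nlinarith
  obtain ⟨n, n1, n2, n3⟩ : ∃ n : ℂ, ‖n‖ = ‖q‖ ∧ R * ‖q‖ ≤ ip n a ∧ ip n q = 0 := by
    have e : ip (I * q) q = 0 := by simp only [ip, mul_re, mul_im, I_re, I_im]; ring
    rcases le_abs.1 h4 with h5 | h5
    · exact ⟨I * q, by simp, by linarith [abs_nonneg c], e⟩
    · exact ⟨-(I * q), by simp, by rw [neg_ip]; linarith [abs_nonneg c], by rw [neg_ip, e, neg_zero]⟩
  set T := (R * ‖q‖ - ip q a) / ‖q‖ ^ 2 with hT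
  have t1 : ip q (a + T * q) = R * ‖q‖ := by
    rw [ip_add, ip_mul, ip_self, hT]; field_simp; ring
  exact (key n a (a + T * q) n1 n2 a2 (by rw [ip_add, ip_mul, n3]; linarith) (by linarith)).trans
    (key q _ z rfl t1.ge (by linarith) z1 z2)

theorem angle_top {φ : ℂ → ℝ} (hφ : Continuous φ) {η p x0 : ℂ} {R ρ : ℝ}
    (hfar : ∀ z, R ≤ ‖z‖ → φ z = ip η z)
    (hd : ∀ c, 0 < c → ∃ r, 0 < r ∧ ∀ z, ‖z‖ ≤ r → |φ (x0 + z) - φ x0 - ip p z| ≤ c * ‖z‖)
    (hp : ∀ b, ‖b‖ = ρ → NoPeak fun z => φ z - ip b z)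
    (hm : ∀ b, ‖b‖ = ρ → NoPeak fun z => -(φ z - ip b z)) (hρ : 0 < ρ) (h1 : ‖p‖ ≠ ρ)
    (h2 : ‖η‖ ≠ ρ) : ∃ r S0 : ℝ, 0 < r ∧ ∀ S : ℝ, S0 ≤ S → ∃ θ : ℂ → ℂ,
      ContinuousOn θ {b | ‖b‖ = ρ} ∧ ∀ b, ‖b‖ = ρ → exp (θ b) * (r * (p - b)) = S * (η - b) - x0 := by
  have d0 : 0 < |‖p‖ - ρ| := abs_pos.2 (sub_ne_zero.2 h1)
  have e0 : 0 < |‖η‖ - ρ| := abs_pos.2 (sub_ne_zero.2 h2)
  obtain ⟨r', r0, hr⟩ := hd _ (half_pos d0)
  have P0 : 0 < ‖p‖ + ρ := by positivity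
  set r := r' / (‖p‖ + ρ) with hr'
  have r1 : 0 < r := div_pos r0 P0
  have loc : ∀ b, ‖b‖ = ρ → ∀ τ : ℝ, |τ| ≤ r → τ ≠ 0 → 0 < τ *
      (φ (x0 + τ * (p - b)) - ip b (x0 + τ * (p - b)) - (φ x0 - ip b x0)) := by
    intro b hb τ τ1 τ0
    have a1 : |‖p‖ - ρ| ≤ ‖p - b‖ := by rw [← hb]; exact abs_norm_sub_norm_le _ _
    have a2 : ‖p - b‖ ≤ ‖p‖ + ρ := by rw [← hb]; exact norm_sub_le _ _
    have a3 : ‖(τ : ℂ) * (p - b)‖ = |τ| * ‖p - b‖ := by
      rw [norm_mul, norm_real, Real.norm_eq_abs]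
    have a4 := hr (τ * (p - b)) (by
      rw [a3]
      calc |τ| * ‖p - b‖ ≤ r * (‖p‖ + ρ) := mul_le_mul τ1 a2 (norm_nonneg _) r1.le
        _ = r' := div_mul_cancel₀ _ P0.ne')
    have a5 : φ (x0 + τ * (p - b)) - ip b (x0 + τ * (p - b)) - (φ x0 - ip b x0)
        = φ (x0 + τ * (p - b)) - φ x0 - ip p (τ * (p - b)) + τ * ‖p - b‖ ^ 2 := by
      rw [← ip_self, sub_ip, ip_add, ip_mul, ip_mul]; ring
    rw [a5]
    rw [a3] at a4
    generalize φ (x0 + τ * (p - b)) - φ x0 - ip p (τ * (p - b)) = E at a4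
    have a6 : |τ * E| ≤ |τ| * (|‖p‖ - ρ| / 2 * (|τ| * ‖p - b‖)) := by
      rw [abs_mul]; exact mul_le_mul_of_nonneg_left a4 (abs_nonneg _)
    have a7 : |τ| * |τ| = τ * τ := abs_mul_abs_self τ
    have a8 : 0 < τ * τ * ‖p - b‖ := mul_pos (mul_self_pos.2 τ0) (d0.trans_le a1)
    have a9 := mul_pos a8 (show 0 < ‖p - b‖ - |‖p‖ - ρ| / 2 by linarith)
    have b1 : |τ| * (|‖p‖ - ρ| / 2 * (|τ| * ‖p - b‖)) = τ * τ * ‖p - b‖ * (|‖p‖ - ρ| / 2) := by
      rw [← a7]; ring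
    nlinarith [neg_abs_le (τ * E)]
  set C := |φ x0| + ρ * ‖x0‖ + 1 with hC
  refine ⟨r, max (|R| / |‖η‖ - ρ|) (C / |‖η‖ - ρ| ^ 2), r1, fun S hS => ?_⟩
  have S1 := (div_le_iff₀ e0).1 ((le_max_left _ _).trans hS)
  have S2 := (div_le_iff₀ (pow_pos e0 2)).1 ((le_max_right _ _).trans hS)
  have S0 : 0 ≤ S := le_trans (by positivity) ((le_max_left _ _).trans hS)
  obtain ⟨θ, t1, t2⟩ := exists_angle (s := {b | ‖b‖ = ρ})
    (U := fun b => {z | φ x0 - ip b x0 < φ z - ip b z}) (u := fun b => x0 + r * (p - b))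
    (v := fun b => S * (η - b)) (a := x0)
    (isOpen_lt (f := fun q : ℂ × ℂ => φ x0 - ip q.1 x0) (g := fun q : ℂ × ℂ => φ q.2 - ip q.1 q.2)
      (by unfold ip; fun_prop) (by unfold ip; fun_prop)) (by fun_prop) (by fun_prop)
    (fun b hb => by
      have a1 : |‖η‖ - ρ| ≤ ‖η - b‖ := by rw [← hb]; exact abs_norm_sub_norm_le _ _
      have a2 : η - b ≠ 0 := norm_pos_iff.1 (e0.trans_le a1)
      obtain ⟨R', hR'⟩ := far_join a2 (φ x0 - ip b x0) R
      obtain ⟨a, a3, a4⟩ := hp b hb (x0 + r * (p - b)) (φ x0 - ip b x0) (max R R')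
        (sub_pos.1 ((mul_pos_iff_of_pos_left r1).1 (loc b hb r (abs_of_pos r1).le r1.ne')))
      have a5 : φ x0 - ip b x0 < φ a - ip b a := a4.right
      rw [hfar a ((le_max_left _ _).trans a3), ← sub_ip] at a5
      have a6 : ip (η - b) (S * (η - b)) = S * ‖η - b‖ ^ 2 := by rw [ip_mul, ip_self]
      have a7 := mul_le_mul_of_nonneg_left a1 S0
      have a8 := mul_le_mul_of_nonneg_left (pow_le_pow_left₀ e0.le a1 2) S0
      have a9 := abs_ip_le b x0
      rw [show ‖b‖ = ρ from hb] at a9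
      refine a4.trans ((hR' a _ ((le_max_right _ _).trans a3) a5 ?_ ?_).mono fun z hz => ?_)
      · rw [a6, sq, ← mul_assoc]
        exact mul_le_mul_of_nonneg_right (by linarith [le_abs_self R]) (norm_nonneg _)
      · rw [a6]
        linarith [le_abs_self (φ x0), neg_abs_le (ip b x0)]
      · have := hz.2
        rw [sub_ip, ← hfar z hz.1] at this
        exact this)
    (fun b hb K k1 k2 => by
      obtain ⟨M, hM⟩ := k1.isBounded.exists_pos_norm_le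
      have a1 := loc b hb (-r) (by rw [abs_neg, abs_of_pos r1]) (neg_ne_zero.2 r1.ne')
      obtain ⟨a, a3, a4⟩ := hm b hb (x0 + (-r : ℝ) * (p - b)) (-(φ x0 - ip b x0)) (M + 1) (by
        beta_reduce
        nlinarith)
      have a5 : Jn Kᶜ x0 (x0 + (-r : ℝ) * (p - b)) := Jn.ray fun t t0 t1 hz => by
        have a6 : φ x0 - ip b x0 < φ _ - ip b _ := k2 hz
        rcases t0.lt_or_eq with t0 | rfl
        · have a7 := loc b hb (t * -r) (by
            rw [abs_mul, abs_neg, abs_of_pos r1, abs_of_pos t0]; nlinarith)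
            (mul_ne_zero t0.ne' (neg_ne_zero.2 r1.ne'))
          rw [ofReal_mul, mul_assoc (t : ℂ)] at a7
          nlinarith [mul_pos (mul_pos t0 r1) (sub_pos.2 a6)]
        · simp at a6
      refine HL.join k1.isClosed (a5.trans (a4.mono fun z hz hz' => ?_)).symm
        (HL.far (norm_pos_iff.1 (by linarith [hM.1])) fun z hz => by linarith [hM.2 z hz])
      have b1 : φ x0 - ip b x0 < φ z - ip b z := k2 hz'
      have b2 : -(φ x0 - ip b x0) < -(φ z - ip b z) := hz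
      linarith)
  exact ⟨θ, t1, fun b hb => by simpa using t2 b hb⟩

/-- The gradient at a point and the gradient at infinity lie on the same side of the circle. -/
theorem top {φ : ℂ → ℝ} (hφ : Continuous φ) {η p x0 : ℂ} {R ρ : ℝ}
    (hfar : ∀ z, R ≤ ‖z‖ → φ z = ip η z)
    (hd : ∀ c, 0 < c → ∃ r, 0 < r ∧ ∀ z, ‖z‖ ≤ r → |φ (x0 + z) - φ x0 - ip p z| ≤ c * ‖z‖)
    (hp : ∀ b, ‖b‖ = ρ → NoPeak fun z => φ z - ip b z)
    (hm : ∀ b, ‖b‖ = ρ → NoPeak fun z => -(φ z - ip b z)) :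
    ¬(‖p‖ < ρ ∧ ρ < ‖η‖) ∧ ¬(‖η‖ < ρ ∧ ρ < ‖p‖) := by
  have big : ∀ S0 d : ℝ, 0 < d → ∃ S : ℝ, S0 ≤ S ∧ 0 < S ∧ ‖x0‖ < S * d := fun S0 d d0 =>
    ⟨max S0 ((‖x0‖ + 1) / d), le_max_left _ _, lt_max_of_lt_right (by positivity), by
      have := (div_le_iff₀ d0).1 (le_max_right S0 ((‖x0‖ + 1) / d))
      linarith⟩
  constructor
  · rintro ⟨h1, h2⟩
    have hρ := (norm_nonneg _).trans_lt h1
    obtain ⟨r, S0, r0, h3⟩ := angle_top hφ hfar hd hp hm hρ h1.ne h2.ne'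
    obtain ⟨S, s1, s2, s3⟩ := big S0 _ (sub_pos.2 h2)
    obtain ⟨θ, t1, t2⟩ := h3 S s1
    have η0 : η ≠ 0 := norm_pos_iff.1 (hρ.trans h2)
    have S0' : (S : ℂ) ≠ 0 := by exact_mod_cast s2.ne'
    have r0' : (r : ℂ) ≠ 0 := by exact_mod_cast r0.ne'
    have b0 : ∀ b : ℂ, ‖b‖ = ρ → b ≠ 0 := fun b hb => norm_pos_iff.1 (hb ▸ hρ)
    obtain ⟨L1, l1, l2⟩ := log_one_sub (s := {b : ℂ | ‖b‖ = ρ})
      (w := fun b => (S * b + x0) / (S * η)) (by fun_prop) (fun b hb => by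
        have := norm_add_le (S * b) x0
        rw [norm_div, div_lt_one (norm_pos_iff.2 (mul_ne_zero S0' η0))]
        simp only [norm_mul, norm_real, Real.norm_eq_abs, abs_of_pos s2,
          show ‖b‖ = ρ from hb] at this ⊢
        linarith) (mul_ne_zero S0' η0)
    obtain ⟨L2, m1, m2⟩ := log_one_sub (s := {b : ℂ | ‖b‖ = ρ}) (w := fun b => p / b)
      (continuousOn_const.div continuousOn_id b0) (fun b hb => by
        rw [norm_div, show ‖b‖ = ρ from hb, div_lt_one hρ]; exact h1) (neg_ne_zero.2 r0')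
    refine no_log hρ (L := fun b => L1 b - θ b - L2 b) ((l1.sub t1).sub m1) fun b hb => ?_
    have e1 : exp (L1 b) = exp (θ b) * exp (L2 b) * b := by
      have := b0 b hb
      rw [l2 b hb, m2 b hb, show S * η * (1 - (S * b + x0) / (S * η)) = S * (η - b) - x0 by
        field_simp; ring, ← t2 b hb]
      field_simp
      ring
    rw [exp_sub, exp_sub, e1]
    field_simp
  · rintro ⟨h1, h2⟩
    have hρ := (norm_nonneg _).trans_lt h1
    obtain ⟨r, S0, r0, h3⟩ := angle_top hφ hfar hd hp hm hρ h2.ne' h1.ne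
    obtain ⟨S, s1, s2, s3⟩ := big S0 _ (sub_pos.2 h1)
    obtain ⟨θ, t1, t2⟩ := h3 S s1
    have p0 : p ≠ 0 := norm_pos_iff.1 (hρ.trans h2)
    have S0' : (S : ℂ) ≠ 0 := by exact_mod_cast s2.ne'
    have r0' : (r : ℂ) ≠ 0 := by exact_mod_cast r0.ne'
    have b0 : ∀ b : ℂ, ‖b‖ = ρ → b ≠ 0 := fun b hb => norm_pos_iff.1 (hb ▸ hρ)
    obtain ⟨L1, l1, l2⟩ := log_one_sub (s := {b : ℂ | ‖b‖ = ρ})
      (w := fun b => (S * η - x0) / (S * b))
      (continuousOn_const.div (by fun_prop) fun b hb => mul_ne_zero S0' (b0 b hb)) (fun b hb => by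
        have := norm_sub_le (S * η) x0
        rw [norm_div, div_lt_one (norm_pos_iff.2 (mul_ne_zero S0' (b0 b hb)))]
        simp only [norm_mul, norm_real, Real.norm_eq_abs, abs_of_pos s2,
          show ‖b‖ = ρ from hb] at this ⊢
        linarith) (neg_ne_zero.2 S0')
    obtain ⟨L2, m1, m2⟩ := log_one_sub (s := {b : ℂ | ‖b‖ = ρ}) (w := fun b => b / p)
      (by fun_prop) (fun b hb => by
        rw [norm_div, show ‖b‖ = ρ from hb, div_lt_one (hρ.trans h2)]; exact h2)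
      (mul_ne_zero r0' p0)
    refine no_log hρ (L := fun b => θ b + L2 b - L1 b) ((t1.add m1).sub l1) fun b hb => ?_
    have e1 : exp (θ b) * exp (L2 b) = exp (L1 b) * b := by
      have := b0 b hb
      rw [l2 b hb, m2 b hb, show r * p * (1 - b / p) = r * (p - b) by field_simp, t2 b hb]
      field_simp
      ring
    rw [exp_sub, exp_add, e1]
    field_simp

end Pool.Agent.MP_515557_an.H62
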